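import Mathlib

/-!
# Connectedness of the closure of the values of a complex divisor function

For `c = -s + i t` with `0 < |t| ≤ 1/50` and `s > 1` sufficiently close to `1` the closure of the
set of values `σ_c(n)`, `n ≥ 1`, is connected.
-/

set_option autoImplicit false

open Finset Filter Topology

namespace Pool.Agent.Results.MP_8a688e_nt.ConnectedClosure

/-- the complex divisor function `σ_c(n) = ∑_{d ∣ n} d ^ c` -/
noncomputable def sig (c : ℂ) (n : ℕ) : ℂ := ∑ d ∈ n.divisors, (d : ℂ) ^ c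

/-- the logarithm of the local factor `1 + q^c` -/
noncomputable def lam (c : ℂ) (q : ℕ) : ℂ := Complex.log (1 + (q : ℂ) ^ c)

lemma isConnected_of_chain (f : ℕ → ℂ) (hb : Bornology.IsBounded (f '' {n | 0 < n}))
    (hch : ∀ ε > 0, ∀ n, 0 < n →
      Relation.EqvGen (fun a b => 0 < a ∧ 0 < b ∧ dist (f a) (f b) < ε) 1 n) :
    IsConnected (closure (f '' {n | 0 < n})) := by
  set S := f '' {n | 0 < n} with hS
  have hcomp : IsCompact (closure S) := hb.isCompact_closure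
  refine ⟨⟨f 1, subset_closure ⟨1, by simp, rfl⟩⟩, ?_⟩
  rw [isPreconnected_iff_subset_of_disjoint_closed]
  -- main claim: the part containing `f 1` is everything
  have main : ∀ u v : Set ℂ, IsClosed u → IsClosed v → closure S ⊆ u ∪ v →
      closure S ∩ (u ∩ v) = ∅ → f 1 ∈ u → closure S ⊆ u := by
    intro u v hu hv hK hdis h1
    have hd : Disjoint (closure S ∩ u) (closure S ∩ v) := by
      rw [Set.disjoint_iff_inter_eq_empty]
      rw [← hdis]
      ext x; simp only [Set.mem_inter_iff]; tauto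
    obtain ⟨δ, hδ, hdδ⟩ := hd.exists_thickenings (hcomp.inter_right hu)
      (isClosed_closure.inter hv)
    have hmem : ∀ n, 0 < n → f n ∈ closure S := fun n hn => subset_closure ⟨n, hn, rfl⟩
    have key : ∀ a b, 0 < a → 0 < b → dist (f a) (f b) < δ → f a ∈ u → f b ∈ u := by
      intro a b ha hb hab hau
      by_contra hbu
      have hbv : f b ∈ v := by
        rcases hK (hmem b hb) with h | h
        · exact absurd h hbu
        · exact h
      have x1 : f b ∈ Metric.thickening δ (closure S ∩ u) := by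
        rw [Metric.mem_thickening_iff]
        exact ⟨f a, ⟨hmem a ha, hau⟩, by rw [dist_comm]; exact hab⟩
      have x2 : f b ∈ Metric.thickening δ (closure S ∩ v) := by
        rw [Metric.mem_thickening_iff]
        exact ⟨f b, ⟨hmem b hb, hbv⟩, by rw [dist_self]; exact hδ⟩
      exact Set.disjoint_left.mp hdδ x1 x2
    have hall : ∀ n, 0 < n → f n ∈ u := by
      intro n hn
      have h := hch δ hδ n hn
      have hiff : ∀ a b, Relation.EqvGen (fun a b => 0 < a ∧ 0 < b ∧ dist (f a) (f b) < δ) a b →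
          (f a ∈ u ↔ f b ∈ u) := by
        intro a b hab
        induction hab with
        | rel x y h =>
          exact ⟨key x y h.1 h.2.1 h.2.2, key y x h.2.1 h.1 (by rw [dist_comm]; exact h.2.2)⟩
        | refl x => exact Iff.rfl
        | symm x y _ ih => exact ih.symm
        | trans x y z _ _ ih1 ih2 => exact ih1.trans ih2
      exact (hiff 1 n h).mp h1
    apply closure_minimal _ hu
    rintro _ ⟨n, hn, rfl⟩
    exact hall n hn
  intro u v hu hv hK hdis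
  rcases hK (subset_closure ⟨1, by simp, rfl⟩ : f 1 ∈ closure S) with h | h
  · left; exact main u v hu hv hK hdis h
  · right
    apply main v u hv hu (by rw [Set.union_comm]; exact hK) (by rw [Set.inter_comm v u]; exact hdis) h

/-- choose a subset whose sum is just below `w` -/
lemma greedy_subset (Q : Finset ℕ) (x : ℕ → ℝ) (μ : ℝ) (hμ : 0 ≤ μ)
    (hx0 : ∀ q ∈ Q, 0 ≤ x q) (hxμ : ∀ q ∈ Q, x q ≤ μ) :
    ∀ w : ℝ, 0 ≤ w → w ≤ ∑ q ∈ Q, x q → ∃ T ⊆ Q, ∑ q ∈ T, x q ≤ w ∧ w - ∑ q ∈ T, x q ≤ μ := by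
  induction Q using Finset.induction_on with
  | empty =>
    intro w hw0 hw
    refine ⟨∅, le_refl _, ?_, ?_⟩
    · simpa using hw0
    · simp only [sum_empty] at hw ⊢; linarith
  | insert a Q ha ih =>
    intro w hw0 hw
    have hx0' : ∀ q ∈ Q, 0 ≤ x q := fun q hq => hx0 q (mem_insert_of_mem hq)
    have hxμ' : ∀ q ∈ Q, x q ≤ μ := fun q hq => hxμ q (mem_insert_of_mem hq)
    rw [sum_insert ha] at hw
    by_cases h1 : w ≤ ∑ q ∈ Q, x q
    · obtain ⟨T, hT, h2, h3⟩ := ih hx0' hxμ' w hw0 h1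
      exact ⟨T, hT.trans (subset_insert _ _), h2, h3⟩
    · by_cases h4 : x a ≤ w
      · obtain ⟨T, hT, h2, h3⟩ := ih hx0' hxμ' (w - x a) (by linarith) (by linarith)
        have haT : a ∉ T := fun h => ha (hT h)
        refine ⟨insert a T, insert_subset_insert _ hT, ?_, ?_⟩
        · rw [sum_insert haT]; linarith
        · rw [sum_insert haT]; linarith
      · refine ⟨∅, empty_subset _, ?_, ?_⟩
        · simpa using hw0
        · simp only [sum_empty]
          have := hxμ a (mem_insert_self _ _)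
          linarith

/-- one greedy pass: the coordinate `x` is brought below `μ`; coordinate `y` is hardly changed. -/
lemma greedy_pass (Q : Finset ℕ) (x y : ℕ → ℝ) (μ τ : ℝ) (hμ : 0 ≤ μ) (hτ : 0 ≤ τ)
    (hxμ : ∀ q ∈ Q, |x q| ≤ μ) (hy : ∀ q ∈ Q, |y q| ≤ τ * |x q|)
    (a b : ℝ) (ha : |a| ≤ ∑ q ∈ Q, |x q|) :
    ∃ U V : Finset ℕ, U ⊆ Q ∧ V ⊆ Q ∧
      |a - (∑ q ∈ U, x q - ∑ q ∈ V, x q)| ≤ μ ∧
      |b - (∑ q ∈ U, y q - ∑ q ∈ V, y q)| ≤ |b| + τ * |a| := by
  obtain ⟨T, hT, h2, h3⟩ := greedy_subset Q (fun q => |x q|) μ hμ (fun q _ => abs_nonneg _) hxμ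
    |a| (abs_nonneg _) ha
  -- positive and negative parts of T
  set P := T.filter (fun q => 0 ≤ x q) with hP
  set N := T.filter (fun q => ¬ 0 ≤ x q) with hN
  have hPx : ∑ q ∈ P, x q = ∑ q ∈ P, |x q| := by
    apply sum_congr rfl; intro q hq
    rw [abs_of_nonneg (mem_filter.mp hq).2]
  have hNx : ∑ q ∈ N, x q = - ∑ q ∈ N, |x q| := by
    rw [← sum_neg_distrib]
    apply sum_congr rfl; intro q hq
    have := (mem_filter.mp hq).2
    push Not at this
    rw [abs_of_neg this]; ring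
  have hsum : ∑ q ∈ P, |x q| + ∑ q ∈ N, |x q| = ∑ q ∈ T, |x q| :=
    sum_filter_add_sum_filter_not T _ _
  have hPy : |∑ q ∈ P, y q - ∑ q ∈ N, y q| ≤ τ * |a| := by
    calc |∑ q ∈ P, y q - ∑ q ∈ N, y q| ≤ |∑ q ∈ P, y q| + |∑ q ∈ N, y q| := abs_sub _ _
      _ ≤ ∑ q ∈ P, |y q| + ∑ q ∈ N, |y q| := add_le_add (abs_sum_le_sum_abs _ _) (abs_sum_le_sum_abs _ _)
      _ = ∑ q ∈ T, |y q| := sum_filter_add_sum_filter_not T _ _
      _ ≤ ∑ q ∈ T, τ * |x q| := sum_le_sum (fun q hq => hy q (hT hq))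
      _ = τ * ∑ q ∈ T, |x q| := by rw [mul_sum]
      _ ≤ τ * |a| := by gcongr
  have hPQ : P ⊆ Q := (filter_subset _ _).trans hT
  have hNQ : N ⊆ Q := (filter_subset _ _).trans hT
  rcases le_total 0 a with h0 | h0
  · refine ⟨P, N, hPQ, hNQ, ?_, ?_⟩
    · rw [hPx, hNx]
      rw [abs_of_nonneg h0] at h2 h3
      rw [abs_le]; constructor <;> linarith
    · calc |b - (∑ q ∈ P, y q - ∑ q ∈ N, y q)| ≤ |b| + |∑ q ∈ P, y q - ∑ q ∈ N, y q| := abs_sub _ _
        _ ≤ |b| + τ * |a| := by gcongr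
  · refine ⟨N, P, hNQ, hPQ, ?_, ?_⟩
    · rw [hPx, hNx]
      rw [abs_of_nonpos h0] at h2 h3
      rw [abs_le]; constructor <;> linarith
    · calc |b - (∑ q ∈ N, y q - ∑ q ∈ P, y q)| ≤ |b| + |∑ q ∈ N, y q - ∑ q ∈ P, y q| := abs_sub _ _
        _ ≤ |b| + τ * |a| := by
          rw [abs_sub_comm (∑ q ∈ N, y q)]
          gcongr

lemma sig_mul (c : ℂ) (m n : ℕ) (h : m.Coprime n) : sig c (m * n) = sig c m * sig c n := by
  unfold sig
  rw [Nat.Coprime.divisors_mul h, sum_map, sum_mul_sum, ← sum_product']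
  simp only [Function.Embedding.coeFn_mk]
  refine (Finset.sum_attach (m.divisors ×ˢ n.divisors)
    (fun x : ℕ × ℕ => ((x.1 * x.2 : ℕ) : ℂ) ^ c)).trans ?_
  apply sum_congr rfl
  intro x _
  push_cast
  exact Complex.natCast_mul_natCast_cpow _ _ _

lemma sig_prime_pow (c : ℂ) (p k : ℕ) (hp : p.Prime) :
    sig c (p ^ k) = ∑ j ∈ range (k + 1), ((p : ℂ) ^ c) ^ j := by
  unfold sig
  rw [Nat.divisors_prime_pow hp, sum_map]
  simp only [Function.Embedding.coeFn_mk]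
  have h : ∀ j : ℕ, ((p ^ j : ℕ) : ℂ) ^ c = ((p : ℂ) ^ c) ^ j := by
    intro j
    induction j with
    | zero => simp
    | succ j ih =>
      rw [pow_succ, pow_succ]
      push_cast at ih ⊢
      have := Complex.natCast_mul_natCast_cpow (p ^ j) p c
      push_cast at this
      rw [this, ih]
  exact sum_congr rfl (fun j _ => h j)

lemma sig_bdd (c : ℂ) (hc : c.re < -1) : ∃ B : ℝ, 0 < B ∧ ∀ n, 0 < n → ‖sig c n‖ ≤ B := by
  have hs : Summable (fun n : ℕ => (n : ℝ) ^ c.re) := Real.summable_nat_rpow.mpr hc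
  refine ⟨(∑' n : ℕ, (n : ℝ) ^ c.re) + 1, ?_, ?_⟩
  · have : 0 ≤ ∑' n : ℕ, (n : ℝ) ^ c.re := tsum_nonneg (fun n => by positivity)
    linarith
  · intro n _
    unfold sig
    calc ‖∑ d ∈ n.divisors, (d : ℂ) ^ c‖ ≤ ∑ d ∈ n.divisors, ‖(d : ℂ) ^ c‖ := norm_sum_le _ _
      _ = ∑ d ∈ n.divisors, (d : ℝ) ^ c.re := by
        apply sum_congr rfl
        intro d hd
        exact Complex.norm_natCast_cpow_of_pos (Nat.pos_of_mem_divisors hd) c
      _ ≤ ∑' n : ℕ, (n : ℝ) ^ c.re := hs.sum_le_tsum _ (fun i _ => by positivity)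
      _ ≤ _ := by linarith

/-- a finite product of distinct primes coprime to `n` -/
lemma sig_mul_prod (c : ℂ) (hc : c.re < -1) (n : ℕ) (U : Finset ℕ)
    (hU : ∀ q ∈ U, q.Prime ∧ ¬ q ∣ n) :
    sig c (n * ∏ q ∈ U, q) = sig c n * Complex.exp (∑ q ∈ U, lam c q) := by
  induction U using Finset.induction_on with
  | empty => simp
  | insert a U ha ih =>
    rw [prod_insert ha, sum_insert ha]
    have hU' : ∀ q ∈ U, q.Prime ∧ ¬ q ∣ n := fun q hq => hU q (mem_insert_of_mem hq)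
    have hap := (hU a (mem_insert_self _ _))
    have hcop : Nat.Coprime (n * ∏ q ∈ U, q) a := by
      rw [Nat.coprime_comm, Nat.Prime.coprime_iff_not_dvd hap.1]
      intro hd
      rcases (Nat.Prime.dvd_mul hap.1).mp hd with h | h
      · exact hap.2 h
      · rw [Prime.dvd_finsetProd_iff hap.1.prime] at h
        obtain ⟨q, hq, haq⟩ := h
        have := (Nat.prime_dvd_prime_iff_eq hap.1 (hU' q hq).1).mp haq
        rw [this] at ha
        exact ha hq
    have h1 : n * (a * ∏ q ∈ U, q) = (n * ∏ q ∈ U, q) * a := by ring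
    rw [h1, sig_mul c _ _ hcop, ih hU', Complex.exp_add]
    have h2 : sig c a = Complex.exp (lam c a) := by
      have := sig_prime_pow c a 1 hap.1
      rw [pow_one] at this
      rw [this, lam, Complex.exp_log]
      · simp [sum_range_succ]
      · intro h0
        have h3 : (a : ℂ) ^ c = -1 := by linear_combination h0
        have h4 := Complex.norm_natCast_cpow_of_pos hap.1.pos c
        rw [h3] at h4
        simp only [norm_neg, norm_one] at h4
        have h5 : (a : ℝ) ^ c.re < 1 := by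
          apply Real.rpow_lt_one_of_one_lt_of_neg
          · exact_mod_cast hap.1.one_lt
          · linarith
        linarith
    rw [h2]; ring

/-- approximability hypothesis -/
def APX (c : ℂ) : Prop :=
  ∀ p : ℕ, p.Prime → ∀ w : ℂ, ‖w‖ ≤ 3 / 2 * (p : ℝ) ^ c.re → ∀ ε > 0,
    ∃ U V : Finset ℕ, (∀ q ∈ U, q.Prime ∧ p < q) ∧ (∀ q ∈ V, q.Prime ∧ p < q) ∧
      ‖w - (∑ q ∈ U, lam c q - ∑ q ∈ V, lam c q)‖ < ε

lemma geom_low (r : ℝ) (h0 : 0 ≤ r) (h1 : r ≤ 1 / 2) (z : ℂ) (hz : ‖z‖ = r) (k : ℕ) :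
    r ^ k ≤ ‖∑ j ∈ range (k + 1), z ^ j‖ := by
  have h2 : r ^ k ≤ 1 - ∑ j ∈ range k, r ^ (j + 1) := by
    induction k with
    | zero => simp
    | succ k ih =>
      rw [sum_range_succ]
      have : r ^ (k + 1) = r ^ k * r := pow_succ _ _
      have h3 : 0 ≤ r ^ k := by positivity
      nlinarith
  have h3 : ∑ j ∈ range (k + 1), z ^ j = 1 + ∑ j ∈ range k, z ^ (j + 1) := by
    rw [sum_range_succ']
    simp [add_comm]
  rw [h3]
  have h4 : ‖∑ j ∈ range k, z ^ (j + 1)‖ ≤ ∑ j ∈ range k, r ^ (j + 1) := by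
    refine (norm_sum_le _ _).trans (le_of_eq ?_)
    apply sum_congr rfl
    intro j _
    rw [norm_pow, hz]
  have h5 : ‖(1 : ℂ)‖ - ‖∑ j ∈ range k, z ^ (j + 1)‖ ≤ ‖1 + ∑ j ∈ range k, z ^ (j + 1)‖ := by
    have := norm_sub_norm_le (1 : ℂ) (-(∑ j ∈ range k, z ^ (j + 1)))
    rw [norm_neg, sub_neg_eq_add] at this
    exact this
  rw [norm_one] at h5
  linarith

/-- the ratio of consecutive prime-power values -/
lemma ratio (c : ℂ) (hc : c.re < -1) (p k : ℕ) (hp : p.Prime) :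
    ∃ w : ℂ, ‖w‖ ≤ 3 / 2 * (p : ℝ) ^ c.re ∧ sig c (p ^ (k + 1)) = sig c (p ^ k) * Complex.exp w := by
  set z : ℂ := (p : ℂ) ^ c with hz
  have hzn : ‖z‖ = (p : ℝ) ^ c.re := Complex.norm_natCast_cpow_of_pos hp.pos c
  have hp2 : (2 : ℝ) ≤ p := by exact_mod_cast hp.two_le
  have hz2 : ‖z‖ ≤ 1 / 2 := by
    rw [hzn]
    calc (p : ℝ) ^ c.re ≤ (p : ℝ) ^ (-1 : ℝ) :=
          Real.rpow_le_rpow_of_exponent_le (by linarith) hc.le
      _ = (p : ℝ)⁻¹ := Real.rpow_neg_one _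
      _ ≤ 1 / 2 := by
        rw [one_div]
        exact inv_anti₀ (by norm_num) hp2
  have hz0 : 0 < ‖z‖ := by
    rw [hzn]; positivity
  have hlow := geom_low ‖z‖ (norm_nonneg _) hz2 z rfl k
  have hsp := sig_prime_pow c p k hp
  rw [← hz] at hsp
  rw [← hsp] at hlow
  have hs0 : 0 < ‖sig c (p ^ k)‖ := lt_of_lt_of_le (by positivity) hlow
  have hsne : sig c (p ^ k) ≠ 0 := norm_pos_iff.mp hs0
  set x : ℂ := z ^ (k + 1) / sig c (p ^ k) with hx
  have hxn : ‖x‖ ≤ ‖z‖ := by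
    rw [hx, norm_div, norm_pow, div_le_iff₀ hs0, pow_succ]
    nlinarith
  refine ⟨Complex.log (1 + x), ?_, ?_⟩
  · rw [← hzn]
    refine (Complex.norm_log_one_add_half_le_self (hxn.trans hz2)).trans ?_
    gcongr
  · have h1x : 1 + x ≠ 0 := by
      intro h0
      have : x = -1 := by linear_combination h0
      rw [this] at hxn
      simp only [norm_neg, norm_one] at hxn
      linarith
    rw [Complex.exp_log h1x, sig_prime_pow c p (k + 1) hp, sum_range_succ, ← sig_prime_pow c p k hp]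
    rw [hx, ← hz]
    field_simp

theorem conn_of_apx (c : ℂ) (hc : c.re < -1) (hapx : APX c) :
    IsConnected (closure (sig c '' {n | 0 < n})) := by
  obtain ⟨B, hB0, hB⟩ := sig_bdd c hc
  apply isConnected_of_chain
  · rw [isBounded_iff_forall_norm_le]
    refine ⟨B, ?_⟩
    rintro _ ⟨n, hn, rfl⟩
    exact hB n hn
  intro ε hε
  set R : ℕ → ℕ → Prop := Relation.EqvGen (fun a b => 0 < a ∧ 0 < b ∧ dist (sig c a) (sig c b) < ε) with hR
  have Rrefl : ∀ a, R a a := fun a => Relation.EqvGen.refl a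
  have Rsymm : ∀ a b, R a b → R b a := fun a b h => Relation.EqvGen.symm _ _ h
  have Rtrans : ∀ a b d, R a b → R b d → R a d := fun a b d h1 h2 => Relation.EqvGen.trans _ _ _ h1 h2
  -- Claim for all primes `≥ N`
  have claim : ∃ N : ℕ, ∀ q : ℕ, q.Prime → N ≤ q → ∀ n, 0 < n → R n (q * n) := by
    have ht : Tendsto (fun n : ℕ => B * (n : ℝ) ^ c.re) atTop (𝓝 0) := by
      have h1 : Tendsto (fun x : ℝ => x ^ (-(-c.re))) atTop (𝓝 0) :=
        tendsto_rpow_neg_atTop (by linarith)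
      have h2 := (h1.comp tendsto_natCast_atTop_atTop).const_mul B
      simpa using h2
    obtain ⟨N, hN⟩ := eventually_atTop.mp (ht.eventually (gt_mem_nhds hε))
    refine ⟨N, ?_⟩
    intro q hq hNq n hn
    apply Relation.EqvGen.rel
    refine ⟨hn, Nat.mul_pos hq.pos hn, ?_⟩
    -- write n = q^k * m
    obtain ⟨k, m, hm, hnk⟩ := Nat.exists_eq_pow_mul_and_not_dvd hn.ne' q hq.ne_one
    have hcop : ∀ j, Nat.Coprime (q ^ j) m := fun j =>
      Nat.Coprime.pow_left j ((Nat.Prime.coprime_iff_not_dvd hq).mpr hm)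
    have hm0 : 0 < m := by
      rcases Nat.eq_zero_or_pos m with h | h
      · rw [h] at hm; exact absurd (dvd_zero q) hm
      · exact h
    have e1 : sig c n = sig c (q ^ k) * sig c m := by rw [hnk, sig_mul c _ _ (hcop k)]
    have e2 : sig c (q * n) = sig c (q ^ (k + 1)) * sig c m := by
      rw [hnk, ← mul_assoc, ← pow_succ', sig_mul c _ _ (hcop (k + 1))]
    have e3 : sig c (q ^ (k + 1)) = sig c (q ^ k) + ((q : ℂ) ^ c) ^ (k + 1) := by
      rw [sig_prime_pow c q (k + 1) hq, sum_range_succ, ← sig_prime_pow c q k hq]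
    rw [dist_comm, Complex.dist_eq, e1, e2, e3]
    have e4 : (sig c (q ^ k) + ((q : ℂ) ^ c) ^ (k + 1)) * sig c m - sig c (q ^ k) * sig c m
        = ((q : ℂ) ^ c) ^ (k + 1) * sig c m := by ring
    rw [e4, norm_mul, norm_pow, Complex.norm_natCast_cpow_of_pos hq.pos]
    have hq1 : (q : ℝ) ^ c.re ≤ 1 := by
      apply Real.rpow_le_one_of_one_le_of_nonpos
      · exact_mod_cast hq.one_lt.le
      · linarith
    have hq0 : 0 ≤ (q : ℝ) ^ c.re := by positivity
    calc ((q : ℝ) ^ c.re) ^ (k + 1) * ‖sig c m‖ ≤ (q : ℝ) ^ c.re * B := by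
          apply mul_le_mul _ (hB m hm0) (norm_nonneg _) hq0
          rw [pow_succ]
          calc ((q : ℝ) ^ c.re) ^ k * (q : ℝ) ^ c.re ≤ 1 * (q : ℝ) ^ c.re := by
                apply mul_le_mul_of_nonneg_right (pow_le_one₀ hq0 hq1) hq0
            _ = _ := one_mul _
      _ = B * (q : ℝ) ^ c.re := mul_comm _ _
      _ < ε := hN q hNq
  -- multiplying by products of primes larger than p
  have mulprod : ∀ p : ℕ, (∀ q : ℕ, q.Prime → p < q → ∀ n, 0 < n → R n (q * n)) →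
      ∀ U : Finset ℕ, (∀ q ∈ U, q.Prime ∧ p < q) → ∀ n, 0 < n → R n (n * ∏ q ∈ U, q) := by
    intro p hp U
    induction U using Finset.induction_on with
    | empty => intro _ n _; simpa using Rrefl n
    | insert a U ha ih =>
      intro hU n hn
      have hU' : ∀ q ∈ U, q.Prime ∧ p < q := fun q hq => hU q (mem_insert_of_mem hq)
      have h1 := ih hU' n hn
      have hpos : 0 < n * ∏ q ∈ U, q := Nat.mul_pos hn (Finset.prod_pos (fun q hq => (hU' q hq).1.pos))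
      have h2 := hp a (hU a (mem_insert_self _ _)).1 (hU a (mem_insert_self _ _)).2 _ hpos
      rw [prod_insert ha]
      have h3 : n * (a * ∏ q ∈ U, q) = a * (n * ∏ q ∈ U, q) := by ring
      rw [h3]
      exact Rtrans _ _ _ h1 h2
  -- stripping primes larger than p
  have strip : ∀ p : ℕ, (∀ q : ℕ, q.Prime → p < q → ∀ n, 0 < n → R n (q * n)) → ∀ n, 0 < n →
      ∃ n', 0 < n' ∧ (∀ q : ℕ, q.Prime → q ∣ n' → q ≤ p) ∧ R n n' ∧ (0 < p → R (p * n) (p * n')) := by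
    intro p hp n
    induction n using Nat.strong_induction_on with
    | _ n ih =>
      intro hn
      by_cases h : ∀ q : ℕ, q.Prime → q ∣ n → q ≤ p
      · exact ⟨n, hn, h, Rrefl n, fun _ => Rrefl _⟩
      · push Not at h
        obtain ⟨q, hq, hqn, hpq⟩ := h
        obtain ⟨m, rfl⟩ := hqn
        have hm : 0 < m := by
          rcases Nat.eq_zero_or_pos m with h0 | h0
          · rw [h0] at hn; simp at hn
          · exact h0
        have hlt : m < q * m := by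
          have := hq.two_le
          nlinarith
        obtain ⟨n', h1, h2, h3, h4⟩ := ih m hlt hm
        refine ⟨n', h1, h2, Rtrans _ _ _ (Rsymm _ _ (hp q hq hpq m hm)) h3, ?_⟩
        intro hp0
        have h5 := hp q hq hpq (p * m) (Nat.mul_pos hp0 hm)
        have h6 : p * (q * m) = q * (p * m) := by ring
        rw [h6]
        exact Rtrans _ _ _ (Rsymm _ _ h5) (h4 hp0)
  -- the descent step
  have step : ∀ p : ℕ, p.Prime → (∀ q : ℕ, q.Prime → p < q → ∀ n, 0 < n → R n (q * n)) →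
      ∀ n, 0 < n → R n (p * n) := by
    intro p hp hlarge n hn
    obtain ⟨n', hn', hsm, h1, h2⟩ := strip p hlarge n hn
    refine Rtrans _ _ _ h1 (Rtrans _ _ _ ?_ (Rsymm _ _ (h2 hp.pos)))
    -- now show R n' (p * n')
    obtain ⟨k, m, hm, hnk⟩ := Nat.exists_eq_pow_mul_and_not_dvd hn'.ne' p hp.ne_one
    have hcop : ∀ j, Nat.Coprime (p ^ j) m := fun j =>
      Nat.Coprime.pow_left j ((Nat.Prime.coprime_iff_not_dvd hp).mpr hm)
    obtain ⟨w, hw1, hw2⟩ := ratio c hc p k hp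
    have hrat : sig c (p * n') = sig c n' * Complex.exp w := by
      have e1 : sig c n' = sig c (p ^ k) * sig c m := by rw [hnk, sig_mul c _ _ (hcop k)]
      have e2 : sig c (p * n') = sig c (p ^ (k + 1)) * sig c m := by
        rw [hnk, ← mul_assoc, ← pow_succ', sig_mul c _ _ (hcop (k + 1))]
      rw [e2, hw2, e1]; ring
    set δ : ℝ := min 1 (ε / (2 * B + 1)) with hδ
    have hδ0 : 0 < δ := lt_min one_pos (by positivity)
    obtain ⟨U, V, hU, hV, hUV⟩ := hapx p hp w hw1 δ hδ0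
    have hUn : ∀ q ∈ U, q.Prime ∧ ¬ q ∣ n' := fun q hq => ⟨(hU q hq).1, fun hd => by
      have := hsm q (hU q hq).1 hd
      have := (hU q hq).2
      omega⟩
    have hVn : ∀ q ∈ V, q.Prime ∧ ¬ q ∣ (p * n') := fun q hq => ⟨(hV q hq).1, fun hd => by
      rcases (Nat.Prime.dvd_mul (hV q hq).1).mp hd with h | h
      · have := (Nat.prime_dvd_prime_iff_eq (hV q hq).1 hp).mp h
        have := (hV q hq).2
        omega
      · have := hsm q (hV q hq).1 h
        have := (hV q hq).2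
        omega⟩
    have r1 := mulprod p hlarge U hU n' hn'
    have r2 := mulprod p hlarge V hV (p * n') (Nat.mul_pos hp.pos hn')
    refine Rtrans _ _ _ r1 (Rtrans _ _ _ ?_ (Rsymm _ _ r2))
    apply Relation.EqvGen.rel
    have hpos1 : 0 < n' * ∏ q ∈ U, q := Nat.mul_pos hn' (Finset.prod_pos (fun q hq => (hU q hq).1.pos))
    have hpos2 : 0 < p * n' * ∏ q ∈ V, q :=
      Nat.mul_pos (Nat.mul_pos hp.pos hn') (Finset.prod_pos (fun q hq => (hV q hq).1.pos))
    refine ⟨hpos1, hpos2, ?_⟩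
    have e1 := sig_mul_prod c hc n' U hUn
    have e2 := sig_mul_prod c hc (p * n') V hVn
    set d : ℂ := w - (∑ q ∈ U, lam c q - ∑ q ∈ V, lam c q) with hd
    have e3 : sig c (n' * ∏ q ∈ U, q) = sig c (p * n' * ∏ q ∈ V, q) * Complex.exp (-d) := by
      rw [e1, e2, hrat, mul_assoc, mul_assoc, ← Complex.exp_add, ← Complex.exp_add]
      congr 2
      rw [hd]; ring
    rw [Complex.dist_eq, e3]
    have e4 : sig c (p * n' * ∏ q ∈ V, q) * Complex.exp (-d) - sig c (p * n' * ∏ q ∈ V, q)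
        = sig c (p * n' * ∏ q ∈ V, q) * (Complex.exp (-d) - 1) := by ring
    rw [e4, norm_mul]
    have hd1 : ‖-d‖ < δ := by rw [norm_neg]; exact hUV
    have hd2 : ‖-d‖ ≤ 1 := hd1.le.trans (min_le_left _ _)
    have hd3 : ‖-d‖ < ε / (2 * B + 1) := lt_of_lt_of_le hd1 (min_le_right _ _)
    calc ‖sig c (p * n' * ∏ q ∈ V, q)‖ * ‖Complex.exp (-d) - 1‖
        ≤ B * (2 * ‖-d‖) := by
          apply mul_le_mul (hB _ hpos2) (Complex.norm_exp_sub_one_le hd2) (norm_nonneg _) hB0.le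
      _ ≤ B * (2 * (ε / (2 * B + 1))) := by gcongr
      _ = (2 * B) * ε / (2 * B + 1) := by ring
      _ < ε := by
        rw [div_lt_iff₀ (by positivity)]
        nlinarith
  -- descend
  have all : ∀ q : ℕ, q.Prime → ∀ n, 0 < n → R n (q * n) := by
    obtain ⟨N, hN⟩ := claim
    have hdesc : ∀ k : ℕ, ∀ q : ℕ, q.Prime → N ≤ q + k → ∀ n, 0 < n → R n (q * n) := by
      intro k
      induction k with
      | zero => intro q hq hNq; exact hN q hq (by omega)
      | succ k ih =>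
        intro q hq hNq
        apply step q hq
        intro q' hq' hqq'
        exact ih q' hq' (by omega)
    intro q hq
    exact hdesc N q hq (by omega)
  intro n
  induction n using Nat.strong_induction_on with
  | _ n ih =>
    intro hn
    by_cases h1 : n = 1
    · rw [h1]; exact Rrefl 1
    · obtain ⟨q, hq, m, rfl⟩ := Nat.exists_prime_and_dvd h1
      have hm : 0 < m := by
        rcases Nat.eq_zero_or_pos m with h0 | h0
        · rw [h0] at hn; simp at hn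
        · exact h0
      have hlt : m < q * m := by
        have := hq.two_le
        nlinarith
      exact Rtrans _ _ _ (ih m hlt hm) (all q hq m hm)

/-- primes in `(X, 4X]` -/
noncomputable def blk (X : ℝ) : Finset ℕ :=
  (Finset.Ioc ⌊X⌋₊ ⌊4 * X⌋₊).filter Nat.Prime

lemma mem_blk (X : ℝ) (hX : 0 ≤ X) (q : ℕ) : q ∈ blk X ↔ q.Prime ∧ X < q ∧ (q : ℝ) ≤ 4 * X := by
  unfold blk
  rw [mem_filter, mem_Ioc, Nat.floor_lt hX, Nat.le_floor_iff (by linarith)]
  tauto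

/-- Chebyshev: many primes in `(X, 4X]` -/
lemma theta_blk (X : ℝ) (hX : 10 ^ 30 ≤ X) : X ≤ ∑ q ∈ blk X, Real.log q := by
  have hX0 : 0 < X := lt_of_lt_of_le (by positivity) hX
  have h1 := Chebyshev.theta_ge' (x := 4 * X) (by linarith)
  have h2 := Chebyshev.theta_le_log4_mul_x (x := X) hX0.le
  have h3 : Chebyshev.theta (4 * X) - Chebyshev.theta X = ∑ q ∈ blk X, Real.log q := by
    unfold Chebyshev.theta blk
    have hle : ⌊X⌋₊ ≤ ⌊4 * X⌋₊ := Nat.floor_mono (by linarith)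
    have h4 : (Finset.Ioc 0 ⌊4 * X⌋₊).filter Nat.Prime
        = (Finset.Ioc 0 ⌊X⌋₊).filter Nat.Prime ∪ (Finset.Ioc ⌊X⌋₊ ⌊4 * X⌋₊).filter Nat.Prime := by
      rw [← filter_union, Ioc_union_Ioc_eq_Ioc (Nat.zero_le _) hle]
    rw [h4, sum_union]
    · ring
    · apply disjoint_filter_filter
      rw [Finset.disjoint_left]
      intro a ha hb
      rw [mem_Ioc] at ha hb
      omega
  rw [← h3]
  -- numeric estimates
  have hlog2 : (0.6931 : ℝ) < Real.log 2 := by have := Real.log_two_gt_d9; linarith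
  have hlog4 : Real.log 4 = 2 * Real.log 2 := by
    rw [show (4 : ℝ) = 2 ^ 2 by norm_num, Real.log_pow]; norm_num
  set Y := 4 * X with hY
  have hY0 : 0 < Y := by positivity
  -- log Y ≤ 8 Y^(1/8)
  have hlogY : Real.log Y ≤ 8 * Y ^ (1 / 8 : ℝ) := by
    have h5 : Real.log Y = 8 * Real.log (Y ^ (1 / 8 : ℝ)) := by
      rw [Real.log_rpow hY0]; ring
    rw [h5]
    have h6 : 0 < Y ^ (1 / 8 : ℝ) := by positivity
    have := Real.log_le_sub_one_of_pos h6
    linarith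
  have hY30 : (10 : ℝ) ^ 30 ≤ Y := by linarith
  have hbig : (10 : ℝ) ^ (11 : ℕ) ≤ Y ^ (3 / 8 : ℝ) := by
    calc (10 : ℝ) ^ (11 : ℕ) ≤ ((10 : ℝ) ^ (30 : ℕ)) ^ (3 / 8 : ℝ) := by
          rw [← Real.rpow_natCast, ← Real.rpow_natCast, ← Real.rpow_mul (by norm_num)]
          apply Real.rpow_le_rpow_of_exponent_le (by norm_num)
          norm_num
      _ ≤ Y ^ (3 / 8 : ℝ) := by
          apply Real.rpow_le_rpow (by positivity) (by exact_mod_cast hY30) (by norm_num)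
  have hsq : √Y = Y ^ (1 / 2 : ℝ) := Real.sqrt_eq_rpow Y
  have h7 : 2 * √Y * Real.log Y ≤ Y / 100 := by
    have h8 : 2 * √Y * Real.log Y ≤ 2 * Y ^ (1 / 2 : ℝ) * (8 * Y ^ (1 / 8 : ℝ)) := by
      rw [hsq]; gcongr
    have h9 : Y ^ (1 / 2 : ℝ) * Y ^ (1 / 8 : ℝ) = Y ^ (5 / 8 : ℝ) := by
      rw [← Real.rpow_add hY0]; norm_num
    have h10 : Y ^ (5 / 8 : ℝ) * Y ^ (3 / 8 : ℝ) = Y := by
      rw [← Real.rpow_add hY0]; norm_num
    have h11 : 0 < Y ^ (5 / 8 : ℝ) := by positivity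
    nlinarith
  have h12 : Real.log (Y + 2) ≤ Y / 100 := by
    have h13 : Real.log (Y + 2) ≤ Real.log (Y ^ 2) := by
      apply Real.log_le_log (by positivity)
      nlinarith
    rw [Real.log_pow] at h13
    have h14 : 1 ≤ √Y := by
      rw [Real.one_le_sqrt]; linarith
    have h15 : 0 ≤ Real.log Y := Real.log_nonneg (by linarith)
    push_cast at h13
    nlinarith
  have h16 : (Y - 1) * Real.log 2 ≥ Y * Real.log 2 - 1 := by
    have : Real.log 2 < 1 := by have := Real.log_two_lt_d9; linarith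
    nlinarith
  rw [hlog4] at h2
  have h17 : 2 * Real.log 2 * X = Y * Real.log 2 / 2 := by rw [hY]; ring
  rw [h17] at h2
  have h18 : Y * Real.log 2 ≥ Y * 0.6931 := by nlinarith
  have h19 : X = Y / 4 := by rw [hY]; ring
  have h20 : (10 : ℝ) ^ 30 ≥ 100 := by norm_num
  linarith

/-- lower bound for `∑ q^{-s}` over the block -/
lemma sum_blk_rpow (X s : ℝ) (hX : 10 ^ 30 ≤ X) (hs0 : 0 ≤ s) :
    X / (Real.log (4 * X) * (4 * X) ^ s) ≤ ∑ q ∈ blk X, (q : ℝ) ^ (-s) := by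
  have hX0 : 0 < X := lt_of_lt_of_le (by positivity) hX
  have hlog : 0 < Real.log (4 * X) := Real.log_pos (by linarith)
  have hp : 0 < (4 * X) ^ s := by positivity
  rw [div_le_iff₀ (by positivity)]
  calc X ≤ ∑ q ∈ blk X, Real.log q := theta_blk X hX
    _ ≤ ∑ q ∈ blk X, (q : ℝ) ^ (-s) * (Real.log (4 * X) * (4 * X) ^ s) := by
        apply sum_le_sum
        intro q hq
        rw [mem_blk X hX0.le] at hq
        obtain ⟨hqp, hq1, hq2⟩ := hq
        have hq0 : (0 : ℝ) < q := by exact_mod_cast hqp.pos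
        have h1 : Real.log q ≤ Real.log (4 * X) := Real.log_le_log hq0 hq2
        have h2 : 1 ≤ (q : ℝ) ^ (-s) * (4 * X) ^ s := by
          rw [Real.rpow_neg hq0.le, ← div_eq_inv_mul, one_le_div (by positivity)]
          exact Real.rpow_le_rpow hq0.le hq2 hs0
        have h3 : 0 ≤ Real.log q := Real.log_nonneg (by exact_mod_cast hqp.one_lt.le)
        calc Real.log q ≤ Real.log (4 * X) * 1 := by linarith
          _ ≤ Real.log (4 * X) * ((q : ℝ) ^ (-s) * (4 * X) ^ s) := by gcongr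
          _ = _ := by ring
    _ = _ := by rw [← sum_mul]


/-- signed sums of local logarithms over primes in `(P, Q]` -/
def SS (c : ℂ) (P Q : ℝ) (z : ℂ) : Prop :=
  ∃ U V : Finset ℕ, (∀ q ∈ U, q.Prime ∧ P < q ∧ (q : ℝ) ≤ Q) ∧
    (∀ q ∈ V, q.Prime ∧ P < q ∧ (q : ℝ) ≤ Q) ∧ z = ∑ q ∈ U, lam c q - ∑ q ∈ V, lam c q

lemma SS.add {c : ℂ} {P Q R : ℝ} {z z' : ℂ} (hPQ : P ≤ Q) (hQR : Q ≤ R)
    (h : SS c P Q z) (h' : SS c Q R z') : SS c P R (z + z') := by
  obtain ⟨U, V, hU, hV, rfl⟩ := h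
  obtain ⟨U', V', hU', hV', rfl⟩ := h'
  have d1 : Disjoint U U' := by
    rw [Finset.disjoint_left]; intro q hq hq'
    have := (hU q hq).2.2; have := (hU' q hq').2.1; linarith
  have d2 : Disjoint V V' := by
    rw [Finset.disjoint_left]; intro q hq hq'
    have := (hV q hq).2.2; have := (hV' q hq').2.1; linarith
  refine ⟨U ∪ U', V ∪ V', ?_, ?_, ?_⟩
  · intro q hq
    rcases mem_union.mp hq with h | h
    · exact ⟨(hU q h).1, (hU q h).2.1, (hU q h).2.2.trans hQR⟩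
    · exact ⟨(hU' q h).1, lt_of_le_of_lt hPQ (hU' q h).2.1, (hU' q h).2.2⟩
  · intro q hq
    rcases mem_union.mp hq with h | h
    · exact ⟨(hV q h).1, (hV q h).2.1, (hV q h).2.2.trans hQR⟩
    · exact ⟨(hV' q h).1, lt_of_le_of_lt hPQ (hV' q h).2.1, (hV' q h).2.2⟩
  · rw [sum_union d1, sum_union d2]; ring

lemma blk_subset_Ioc {E : ℝ} (hE : 4 ≤ E) {a m a' : ℕ} (h1 : a ≤ m) (h2 : m + 1 ≤ a') {q : ℕ}
    (hq : q ∈ blk (E ^ m)) : q.Prime ∧ E ^ a < q ∧ (q : ℝ) ≤ E ^ a' := by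
  have hE0 : 0 ≤ E ^ m := by positivity
  rw [mem_blk _ hE0] at hq
  refine ⟨hq.1, lt_of_le_of_lt ?_ hq.2.1, hq.2.2.trans ?_⟩
  · exact pow_le_pow_right₀ (by linarith) h1
  · calc 4 * E ^ m ≤ E * E ^ m := by gcongr
      _ = E ^ (m + 1) := by ring
      _ ≤ E ^ a' := pow_le_pow_right₀ (by linarith) h2

lemma blk_disjoint {E : ℝ} (hE : 4 ≤ E) {m m' : ℕ} (h : m ≠ m') :
    Disjoint (blk (E ^ m)) (blk (E ^ m')) := by
  rw [Finset.disjoint_left]
  intro q hq hq'
  rcases Nat.lt_or_gt_of_ne h with h | h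
  · have h1 := (blk_subset_Ioc hE (le_refl m) (le_refl (m + 1)) hq).2.2
    have h2 := (blk_subset_Ioc hE (show m + 1 ≤ m' from h) (le_refl (m' + 1)) hq').2.1
    linarith
  · have h1 := (blk_subset_Ioc hE (le_refl m') (le_refl (m' + 1)) hq').2.2
    have h2 := (blk_subset_Ioc hE (show m' + 1 ≤ m from h) (le_refl (m + 1)) hq).2.1
    linarith

/-- Data describing the directions and capacities of the blocks. -/
structure Good (c : ℂ) (E : ℝ) (cap : ℕ → ℝ) : Prop where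
  hE : 4 ≤ E
  even_dir : ∀ j, 1 ≤ j → ∀ q ∈ blk (E ^ (2 * j)), |(lam c q).im| ≤ 1 / 5 * |(lam c q).re|
  odd_dir : ∀ j, 1 ≤ j → ∀ q ∈ blk (E ^ (2 * j + 1)), |(lam c q).re| ≤ 1 / 5 * |(lam c q).im|
  even_cap : ∀ j, 1 ≤ j → cap j ≤ ∑ q ∈ blk (E ^ (2 * j)), |(lam c q).re|
  odd_cap : ∀ j, 1 ≤ j → cap j ≤ ∑ q ∈ blk (E ^ (2 * j + 1)), |(lam c q).im|
  small : ∀ m, 1 ≤ m → ∀ q ∈ blk (E ^ m), ‖lam c q‖ ≤ 3 / 2 / E ^ m

lemma step_pass {c : ℂ} {E : ℝ} {cap : ℕ → ℝ} (G : Good c E cap) (a a' : ℕ) (ha : 1 ≤ a)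
    (W : ℝ) (hW : 0 ≤ W) (hcap : 6 / 5 * W ≤ ∑ j ∈ Finset.Ico a a', cap j)
    (hsm : 3 / 2 / E ^ (2 * a) ≤ W / 4) (w : ℂ) (hre : |w.re| ≤ W) (him : |w.im| ≤ W) :
    ∃ d, SS c (E ^ (2 * a)) (E ^ (2 * a')) d ∧ |(w - d).re| ≤ W / 2 ∧ |(w - d).im| ≤ W / 2 := by
  have hE := G.hE
  have hE1 : 1 ≤ E := by linarith
  set Q1 := (Finset.Ico a a').biUnion (fun j => blk (E ^ (2 * j))) with hQ1
  set Q2 := (Finset.Ico a a').biUnion (fun j => blk (E ^ (2 * j + 1))) with hQ2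
  have m1 : ∀ q ∈ Q1, ∃ j, a ≤ j ∧ j < a' ∧ q ∈ blk (E ^ (2 * j)) := by
    intro q hq
    obtain ⟨j, hj, hqj⟩ := mem_biUnion.mp hq
    exact ⟨j, (mem_Ico.mp hj).1, (mem_Ico.mp hj).2, hqj⟩
  have m2 : ∀ q ∈ Q2, ∃ j, a ≤ j ∧ j < a' ∧ q ∈ blk (E ^ (2 * j + 1)) := by
    intro q hq
    obtain ⟨j, hj, hqj⟩ := mem_biUnion.mp hq
    exact ⟨j, (mem_Ico.mp hj).1, (mem_Ico.mp hj).2, hqj⟩
  have r1 : ∀ q ∈ Q1, q.Prime ∧ E ^ (2 * a) < q ∧ (q : ℝ) ≤ E ^ (2 * a') := by
    intro q hq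
    obtain ⟨j, h1, h2, h3⟩ := m1 q hq
    exact blk_subset_Ioc hE (by omega) (by omega) h3
  have r2 : ∀ q ∈ Q2, q.Prime ∧ E ^ (2 * a) < q ∧ (q : ℝ) ≤ E ^ (2 * a') := by
    intro q hq
    obtain ⟨j, h1, h2, h3⟩ := m2 q hq
    exact blk_subset_Ioc hE (by omega) (by omega) h3
  have hdis : Disjoint Q1 Q2 := by
    rw [Finset.disjoint_left]
    intro q hq hq'
    obtain ⟨j, h1, h2, h3⟩ := m1 q hq
    obtain ⟨j', h1', h2', h3'⟩ := m2 q hq'
    exact (Finset.disjoint_left.mp (blk_disjoint hE (by omega))) h3 h3'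
  have hsmall : ∀ m, 2 * a ≤ m → ∀ q ∈ blk (E ^ m), ‖lam c q‖ ≤ W / 4 := by
    intro m hm q hq
    refine (G.small m (by omega) q hq).trans (le_trans ?_ hsm)
    apply div_le_div_of_nonneg_left (by norm_num) (by positivity)
    exact pow_le_pow_right₀ hE1 hm
  have s1 : ∑ j ∈ Finset.Ico a a', cap j ≤ ∑ q ∈ Q1, |(lam c q).re| := by
    rw [hQ1, sum_biUnion]
    · apply sum_le_sum
      intro j hj
      exact G.even_cap j (by have := (mem_Ico.mp hj).1; omega)
    · intro j _ j' _ hjj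
      exact blk_disjoint hE (by omega)
  have s2 : ∑ j ∈ Finset.Ico a a', cap j ≤ ∑ q ∈ Q2, |(lam c q).im| := by
    rw [hQ2, sum_biUnion]
    · apply sum_le_sum
      intro j hj
      exact G.odd_cap j (by have := (mem_Ico.mp hj).1; omega)
    · intro j _ j' _ hjj
      exact blk_disjoint hE (by omega)
  obtain ⟨U1, V1, hU1, hV1, e1, e2⟩ := greedy_pass Q1 (fun q => (lam c q).re) (fun q => (lam c q).im)
    (W / 4) (1 / 5) (by linarith) (by norm_num)
    (by
      intro q hq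
      obtain ⟨j, h1, h2, h3⟩ := m1 q hq
      exact (Complex.abs_re_le_norm _).trans (hsmall _ (by omega) q h3))
    (by
      intro q hq
      obtain ⟨j, h1, h2, h3⟩ := m1 q hq
      exact G.even_dir j (by omega) q h3)
    w.re w.im (by linarith)
  set d1 : ℂ := ∑ q ∈ U1, lam c q - ∑ q ∈ V1, lam c q with hd1
  have e1' : |(w - d1).re| ≤ W / 4 := by
    rw [hd1]; simpa [Complex.sub_re, Complex.re_sum] using e1
  have e2' : |(w - d1).im| ≤ 6 / 5 * W := by
    have : |(w - d1).im| ≤ |w.im| + 1 / 5 * |w.re| := by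
      rw [hd1]; simpa [Complex.sub_im, Complex.im_sum] using e2
    linarith
  obtain ⟨U2, V2, hU2, hV2, e3, e4⟩ := greedy_pass Q2 (fun q => (lam c q).im) (fun q => (lam c q).re)
    (W / 4) (1 / 5) (by linarith) (by norm_num)
    (by
      intro q hq
      obtain ⟨j, h1, h2, h3⟩ := m2 q hq
      exact (Complex.abs_im_le_norm _).trans (hsmall _ (by omega) q h3))
    (by
      intro q hq
      obtain ⟨j, h1, h2, h3⟩ := m2 q hq
      exact G.odd_dir j (by omega) q h3)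
    (w - d1).im (w - d1).re (by linarith)
  set d2 : ℂ := ∑ q ∈ U2, lam c q - ∑ q ∈ V2, lam c q with hd2
  have e3' : |(w - d1 - d2).im| ≤ W / 4 := by
    rw [hd2]; simpa [Complex.sub_im, Complex.im_sum] using e3
  have e4' : |(w - d1 - d2).re| ≤ W / 2 := by
    have : |(w - d1 - d2).re| ≤ |(w - d1).re| + 1 / 5 * |(w - d1).im| := by
      rw [hd2]; simpa [Complex.sub_re, Complex.re_sum] using e4
    linarith
  refine ⟨d1 + d2, ?_, ?_, ?_⟩
  · have du : Disjoint U1 U2 := Finset.disjoint_of_subset_left hU1 (Finset.disjoint_of_subset_right hU2 hdis)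
    have dv : Disjoint V1 V2 := Finset.disjoint_of_subset_left hV1 (Finset.disjoint_of_subset_right hV2 hdis)
    refine ⟨U1 ∪ U2, V1 ∪ V2, ?_, ?_, ?_⟩
    · intro q hq
      rcases mem_union.mp hq with h | h
      · exact r1 q (hU1 h)
      · exact r2 q (hU2 h)
    · intro q hq
      rcases mem_union.mp hq with h | h
      · exact r1 q (hV1 h)
      · exact r2 q (hV2 h)
    · rw [sum_union du, sum_union dv, hd1, hd2]; ring
  · rw [← sub_sub]; exact e4'
  · rw [← sub_sub]; linarith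

/-- every point of the square of half-side `W` is a limit of signed sums over primes `> E^(2a)` -/
def T (c : ℂ) (E : ℝ) (a : ℕ) (W : ℝ) : Prop :=
  ∀ w : ℂ, |w.re| ≤ W → |w.im| ≤ W → ∀ ε > 0, ∃ N : ℝ, ∃ d, SS c (E ^ (2 * a)) N d ∧ ‖w - d‖ < ε

lemma T_step {c : ℂ} {E : ℝ} {cap : ℕ → ℝ} (G : Good c E cap) (a a' : ℕ) (ha : 1 ≤ a)
    (haa : a ≤ a') (W : ℝ) (hW : 0 ≤ W) (hcap : 6 / 5 * W ≤ ∑ j ∈ Finset.Ico a a', cap j)
    (hsm : 3 / 2 / E ^ (2 * a) ≤ W / 4) (hT : T c E a' (W / 2)) : T c E a W := by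
  intro w hre him ε hε
  obtain ⟨d, hd, h1, h2⟩ := step_pass G a a' ha W hW hcap hsm w hre him
  obtain ⟨N, d', hd', h3⟩ := hT (w - d) h1 h2 ε hε
  have hE1 : 1 ≤ E := by linarith [G.hE]
  refine ⟨max N (E ^ (2 * a')), d + d', ?_, by rw [← sub_sub]; exact h3⟩
  apply SS.add (pow_le_pow_right₀ hE1 (by omega : 2 * a ≤ 2 * a')) (le_max_right _ _) hd
  obtain ⟨U, V, hU, hV, he⟩ := hd'
  exact ⟨U, V, fun q hq => ⟨(hU q hq).1, (hU q hq).2.1, (hU q hq).2.2.trans (le_max_left _ _)⟩,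
    fun q hq => ⟨(hV q hq).1, (hV q hq).2.1, (hV q hq).2.2.trans (le_max_left _ _)⟩, he⟩

lemma T_tail {c : ℂ} {E : ℝ} {cap : ℕ → ℝ} (G : Good c E cap) (a : ℕ) (ha : 1 ≤ a)
    (W : ℝ) (hW : 0 ≤ W) (hcap : ∀ i : ℕ, 6 / 5 * (W / 2 ^ i) ≤ cap (a + i))
    (hsm : ∀ i : ℕ, 3 / 2 / E ^ (2 * (a + i)) ≤ W / 2 ^ i / 4) : T c E a W := by
  have hE1 : 1 ≤ E := by linarith [G.hE]
  have key : ∀ n : ℕ, ∀ w : ℂ, |w.re| ≤ W → |w.im| ≤ W →
      ∃ d, SS c (E ^ (2 * a)) (E ^ (2 * (a + n))) d ∧ |(w - d).re| ≤ W / 2 ^ n ∧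
        |(w - d).im| ≤ W / 2 ^ n := by
    intro n w hre him
    induction n with
    | zero =>
      refine ⟨0, ⟨∅, ∅, by simp, by simp, by simp⟩, ?_, ?_⟩
      · simpa using hre
      · simpa using him
    | succ n ih =>
      obtain ⟨d, hd, h1, h2⟩ := ih
      obtain ⟨d', hd', h3, h4⟩ := step_pass G (a + n) (a + n + 1) (by omega) (W / 2 ^ n)
        (by positivity) (by simpa using hcap n) (hsm n) (w - d) h1 h2
      refine ⟨d + d', ?_, ?_, ?_⟩
      · exact SS.add (pow_le_pow_right₀ hE1 (by omega)) (pow_le_pow_right₀ hE1 (by omega)) hd hd'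
      · rw [← sub_sub, pow_succ, ← div_div]; exact h3
      · rw [← sub_sub, pow_succ, ← div_div]; exact h4
  intro w hre him ε hε
  obtain ⟨n, hn⟩ : ∃ n : ℕ, 2 * (W / 2 ^ n) < ε := by
    have h1 : Tendsto (fun n : ℕ => 2 * (W * (1 / 2 : ℝ) ^ n)) atTop (𝓝 (2 * (W * 0))) := by
      apply Tendsto.const_mul
      apply Tendsto.const_mul
      exact tendsto_pow_atTop_nhds_zero_of_lt_one (by norm_num) (by norm_num)
    simp only [mul_zero] at h1
    obtain ⟨n, hn⟩ := (h1.eventually (gt_mem_nhds hε)).exists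
    refine ⟨n, ?_⟩
    rw [one_div, inv_pow] at hn
    rw [div_eq_mul_inv]
    exact hn
  obtain ⟨d, hd, h1, h2⟩ := key n w hre him
  refine ⟨_, d, hd, ?_⟩
  calc ‖w - d‖ ≤ |(w - d).re| + |(w - d).im| := Complex.norm_le_abs_re_add_abs_im _
    _ ≤ W / 2 ^ n + W / 2 ^ n := add_le_add h1 h2
    _ = 2 * (W / 2 ^ n) := by ring
    _ < ε := hn

/-- coordinates of `q^c` -/
lemma cpow_re_im (s t : ℝ) (q : ℕ) (hq : 0 < q) :
    ((q : ℂ) ^ (⟨-s, t⟩ : ℂ)).re = (q : ℝ) ^ (-s) * Real.cos (t * Real.log q) ∧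
    ((q : ℂ) ^ (⟨-s, t⟩ : ℂ)).im = (q : ℝ) ^ (-s) * Real.sin (t * Real.log q) := by
  have hq0 : (0 : ℝ) < q := by exact_mod_cast hq
  have h1 : (q : ℂ) ^ (⟨-s, t⟩ : ℂ) = Complex.exp (((-s * Real.log q : ℝ) : ℂ) + ((t * Real.log q : ℝ) : ℂ) * Complex.I) := by
    rw [Complex.cpow_def_of_ne_zero (by exact_mod_cast hq.ne')]
    congr 1
    rw [← Complex.natCast_log]
    have : (⟨-s, t⟩ : ℂ) = ((-s : ℝ) : ℂ) + (t : ℂ) * Complex.I := by
      apply Complex.ext <;> simp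
    rw [this]
    push_cast
    ring
  rw [h1, Complex.exp_add, ← Complex.ofReal_exp, Complex.exp_mul_I, ← Complex.ofReal_cos,
    ← Complex.ofReal_sin]
  have h2 : (q : ℝ) ^ (-s) = Real.exp (-s * Real.log q) := by
    rw [Real.rpow_def_of_pos hq0]; ring_nf
  rw [h2]
  generalize Real.cos (t * Real.log q) = C
  generalize Real.sin (t * Real.log q) = S
  generalize Real.exp (-s * Real.log q) = R
  constructor <;> simp

lemma lam_est (s t : ℝ) (hs : 1 ≤ s) (q : ℕ) (hq : 100 ≤ q) :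
    |(lam ⟨-s, t⟩ q).re - (q : ℝ) ^ (-s) * Real.cos (t * Real.log q)| ≤ 1 / 100 * (q : ℝ) ^ (-s) ∧
    |(lam ⟨-s, t⟩ q).im - (q : ℝ) ^ (-s) * Real.sin (t * Real.log q)| ≤ 1 / 100 * (q : ℝ) ^ (-s) ∧
    ‖lam ⟨-s, t⟩ q‖ ≤ 3 / 2 * (q : ℝ) ^ (-s) := by
  have hq0 : (0 : ℝ) < q := by
    have : 0 < q := by omega
    exact_mod_cast this
  have hq100 : (100 : ℝ) ≤ q := by exact_mod_cast hq
  set z : ℂ := (q : ℂ) ^ (⟨-s, t⟩ : ℂ) with hz
  have hzn : ‖z‖ = (q : ℝ) ^ (-s) := by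
    have := Complex.norm_natCast_cpow_of_pos (n := q) (by omega) (⟨-s, t⟩ : ℂ)
    simpa using this
  have hzs : (q : ℝ) ^ (-s) ≤ 1 / 100 := by
    calc (q : ℝ) ^ (-s) ≤ (q : ℝ) ^ (-1 : ℝ) :=
          Real.rpow_le_rpow_of_exponent_le (by linarith) (by linarith)
      _ = (q : ℝ)⁻¹ := Real.rpow_neg_one _
      _ ≤ 1 / 100 := by
        rw [one_div]
        exact inv_anti₀ (by norm_num) hq100
  have h0 : 0 ≤ (q : ℝ) ^ (-s) := by positivity
  have hE : ‖lam ⟨-s, t⟩ q - z‖ ≤ 1 / 100 * (q : ℝ) ^ (-s) := by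
    have h1 := Complex.norm_log_one_add_sub_self_le (z := z) (by rw [hzn]; linarith)
    rw [hzn] at h1
    refine h1.trans ?_
    have h2 : (1 - (q : ℝ) ^ (-s))⁻¹ ≤ 2 := by
      rw [inv_le_comm₀ (by linarith) (by norm_num)]
      norm_num
      linarith
    calc ((q : ℝ) ^ (-s)) ^ 2 * (1 - (q : ℝ) ^ (-s))⁻¹ / 2 ≤ ((q : ℝ) ^ (-s)) ^ 2 * 2 / 2 := by gcongr
      _ = (q : ℝ) ^ (-s) * (q : ℝ) ^ (-s) := by ring
      _ ≤ 1 / 100 * (q : ℝ) ^ (-s) := by gcongr
  obtain ⟨hre, him⟩ := cpow_re_im s t q (by omega)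
  rw [← hz] at hre him
  refine ⟨?_, ?_, ?_⟩
  · rw [← hre, ← Complex.sub_re]
    exact (Complex.abs_re_le_norm _).trans hE
  · rw [← him, ← Complex.sub_im]
    exact (Complex.abs_im_le_norm _).trans hE
  · have := norm_le_norm_add_norm_sub' (lam ⟨-s, t⟩ q) z
    calc ‖lam ⟨-s, t⟩ q‖ ≤ ‖z‖ + ‖lam ⟨-s, t⟩ q - z‖ := this
      _ ≤ (q : ℝ) ^ (-s) + 1 / 100 * (q : ℝ) ^ (-s) := by rw [hzn]; gcongr
      _ ≤ _ := by linarith

/-- angles in the blocks -/
lemma angle (t : ℝ) (ht0 : 0 < t) (ht : t ≤ 1 / 50) (m : ℕ) (q : ℕ)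
    (hq : q ∈ blk (Real.exp (Real.pi / (2 * t)) ^ m)) :
    ∃ φ : ℝ, 0 ≤ φ ∧ φ ≤ 1 / 25 ∧ t * Real.log q = m * (Real.pi / 2) + φ := by
  have hX : (0 : ℝ) < Real.exp (Real.pi / (2 * t)) ^ m := by positivity
  rw [mem_blk _ hX.le] at hq
  obtain ⟨hqp, h1, h2⟩ := hq
  have hq0 : (0 : ℝ) < q := by exact_mod_cast hqp.pos
  have hlogX : Real.log (Real.exp (Real.pi / (2 * t)) ^ m) = m * (Real.pi / (2 * t)) := by
    rw [Real.log_pow, Real.log_exp]
  have h3 : m * (Real.pi / (2 * t)) ≤ Real.log q := by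
    rw [← hlogX]; exact Real.log_le_log hX h1.le
  have h4 : Real.log q ≤ Real.log 4 + m * (Real.pi / (2 * t)) := by
    rw [← hlogX, ← Real.log_mul (by norm_num) hX.ne']
    exact Real.log_le_log hq0 h2
  have h5 : t * (m * (Real.pi / (2 * t))) = m * (Real.pi / 2) := by field_simp
  have h6 : Real.log 4 ≤ 2 := by
    have h7 : Real.log 4 = 2 * Real.log 2 := by
      rw [show (4 : ℝ) = 2 ^ 2 by norm_num, Real.log_pow]; norm_num
    have := Real.log_two_lt_d9
    linarith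
  refine ⟨t * Real.log q - m * (Real.pi / 2), ?_, ?_, by ring⟩
  · rw [← h5]; nlinarith
  · rw [← h5]
    have h8 : t * Real.log q ≤ t * (Real.log 4 + m * (Real.pi / (2 * t))) := by gcongr
    have h9 : t * Real.log 4 ≤ 1 / 50 * 2 := by
      apply mul_le_mul ht h6 (Real.log_nonneg (by norm_num)) (by norm_num)
    nlinarith

lemma trig_small (φ : ℝ) (h0 : 0 ≤ φ) (h1 : φ ≤ 1 / 25) :
    |Real.sin φ| ≤ 1 / 25 ∧ 99 / 100 ≤ |Real.cos φ| := by
  constructor
  · have := Real.abs_sin_le_abs (x := φ)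
    rw [abs_of_nonneg h0] at this
    linarith
  · have := Real.one_sub_sq_div_two_le_cos (x := φ)
    have h2 : 0 < Real.cos φ := by nlinarith
    rw [abs_of_pos h2]
    nlinarith

lemma trig_even (j : ℕ) (φ : ℝ) : |Real.sin ((2 * j : ℕ) * (Real.pi / 2) + φ)| = |Real.sin φ| ∧
    |Real.cos ((2 * j : ℕ) * (Real.pi / 2) + φ)| = |Real.cos φ| := by
  have h : ((2 * j : ℕ) : ℝ) * (Real.pi / 2) + φ = φ + j * Real.pi := by push_cast; ring
  rw [h, Real.sin_add_nat_mul_pi, Real.cos_add_nat_mul_pi]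
  simp [abs_mul, abs_pow]

lemma trig_odd (j : ℕ) (φ : ℝ) : |Real.sin ((2 * j + 1 : ℕ) * (Real.pi / 2) + φ)| = |Real.cos φ| ∧
    |Real.cos ((2 * j + 1 : ℕ) * (Real.pi / 2) + φ)| = |Real.sin φ| := by
  have h : ((2 * j + 1 : ℕ) : ℝ) * (Real.pi / 2) + φ = (φ + Real.pi / 2) + j * Real.pi := by
    push_cast; ring
  rw [h, Real.sin_add_nat_mul_pi, Real.cos_add_nat_mul_pi, Real.sin_add_pi_div_two,
    Real.cos_add_pi_div_two]
  simp [abs_mul, abs_pow]

/-- the capacities -/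
noncomputable def capf (E s : ℝ) (j : ℕ) : ℝ := 1 / (192 * Real.log E) / j / (E ^ (3 * (s - 1))) ^ j

lemma good (s t : ℝ) (hs : 1 ≤ s) (hs2 : s ≤ 2) (ht0 : 0 < t) (ht : t ≤ 1 / 50) :
    Good ⟨-s, t⟩ (Real.exp (Real.pi / (2 * t))) (capf (Real.exp (Real.pi / (2 * t))) s) := by
  set E := Real.exp (Real.pi / (2 * t)) with hE
  have hpi := Real.pi_gt_three
  have hexp : 75 ≤ Real.pi / (2 * t) := by
    rw [le_div_iff₀ (by positivity)]
    nlinarith
  have hEbig : (10 : ℝ) ^ 30 ≤ E := by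
    have h1 : Real.exp 75 ≤ E := Real.exp_le_exp.mpr hexp
    have h2 : (10 : ℝ) ^ 30 ≤ Real.exp 75 := by
      have h3 : (2.7 : ℝ) ≤ Real.exp 1 := by have := Real.exp_one_gt_d9; linarith
      have h4 : Real.exp 75 = (Real.exp 1) ^ 75 := by
        rw [← Real.exp_nat_mul]; norm_num
      rw [h4]
      calc (10 : ℝ) ^ 30 ≤ (2.7 : ℝ) ^ 75 := by norm_num
        _ ≤ _ := pow_le_pow_left₀ (by norm_num) h3 75
    linarith
  have hE1 : (1 : ℝ) ≤ E := by linarith [show (1 : ℝ) ≤ 10 ^ 30 by norm_num]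
  have hE0 : 0 < E := by linarith
  have hlogE : 75 ≤ Real.log E := by rw [hE, Real.log_exp]; exact hexp
  have hXbig : ∀ m : ℕ, 1 ≤ m → (10 : ℝ) ^ 30 ≤ E ^ m := by
    intro m hm
    calc (10 : ℝ) ^ 30 ≤ E := hEbig
      _ = E ^ 1 := (pow_one E).symm
      _ ≤ E ^ m := pow_le_pow_right₀ hE1 hm
  have hq100 : ∀ m : ℕ, 1 ≤ m → ∀ q ∈ blk (E ^ m), 100 ≤ q ∧ E ^ m ≤ q := by
    intro m hm q hq
    rw [mem_blk _ (by positivity)] at hq
    have h1 := hXbig m hm
    have h2 : (100 : ℝ) ≤ q := by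
      have : (100 : ℝ) ≤ 10 ^ 30 := by norm_num
      linarith [hq.2.1]
    exact ⟨by exact_mod_cast h2, hq.2.1.le⟩
  -- direction estimates
  have even_est : ∀ j, 1 ≤ j → ∀ q ∈ blk (E ^ (2 * j)),
      |(lam ⟨-s, t⟩ q).im| ≤ 1 / 20 * (q : ℝ) ^ (-s) ∧ 98 / 100 * (q : ℝ) ^ (-s) ≤ |(lam ⟨-s, t⟩ q).re| := by
    intro j hj q hq
    obtain ⟨h1, h2, _⟩ := lam_est s t hs q (hq100 _ (by omega) q hq).1
    obtain ⟨φ, hφ0, hφ1, hφ⟩ := angle t ht0 ht (2 * j) q hq
    obtain ⟨t1, t2⟩ := trig_small φ hφ0 hφ1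
    obtain ⟨t3, t4⟩ := trig_even j φ
    rw [hφ] at h1 h2
    have hr : 0 ≤ (q : ℝ) ^ (-s) := by positivity
    constructor
    · have h3 : |(lam ⟨-s, t⟩ q).im| ≤ |(q : ℝ) ^ (-s) * Real.sin ((2 * j : ℕ) * (Real.pi / 2) + φ)|
          + 1 / 100 * (q : ℝ) ^ (-s) := by
        have := abs_sub_abs_le_abs_sub (lam ⟨-s, t⟩ q).im ((q : ℝ) ^ (-s) * Real.sin ((2 * j : ℕ) * (Real.pi / 2) + φ))
        linarith
      rw [abs_mul, abs_of_nonneg hr, t3] at h3
      nlinarith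
    · have h3 : |(q : ℝ) ^ (-s) * Real.cos ((2 * j : ℕ) * (Real.pi / 2) + φ)|
          - 1 / 100 * (q : ℝ) ^ (-s) ≤ |(lam ⟨-s, t⟩ q).re| := by
        have := abs_sub_abs_le_abs_sub ((q : ℝ) ^ (-s) * Real.cos ((2 * j : ℕ) * (Real.pi / 2) + φ)) (lam ⟨-s, t⟩ q).re
        rw [abs_sub_comm] at h1
        linarith
      rw [abs_mul, abs_of_nonneg hr, t4] at h3
      nlinarith
  have odd_est : ∀ j, 1 ≤ j → ∀ q ∈ blk (E ^ (2 * j + 1)),
      |(lam ⟨-s, t⟩ q).re| ≤ 1 / 20 * (q : ℝ) ^ (-s) ∧ 98 / 100 * (q : ℝ) ^ (-s) ≤ |(lam ⟨-s, t⟩ q).im| := by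
    intro j hj q hq
    obtain ⟨h1, h2, _⟩ := lam_est s t hs q (hq100 _ (by omega) q hq).1
    obtain ⟨φ, hφ0, hφ1, hφ⟩ := angle t ht0 ht (2 * j + 1) q hq
    obtain ⟨t1, t2⟩ := trig_small φ hφ0 hφ1
    obtain ⟨t3, t4⟩ := trig_odd j φ
    rw [hφ] at h1 h2
    have hr : 0 ≤ (q : ℝ) ^ (-s) := by positivity
    constructor
    · have h3 : |(lam ⟨-s, t⟩ q).re| ≤ |(q : ℝ) ^ (-s) * Real.cos ((2 * j + 1 : ℕ) * (Real.pi / 2) + φ)|
          + 1 / 100 * (q : ℝ) ^ (-s) := by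
        have := abs_sub_abs_le_abs_sub (lam ⟨-s, t⟩ q).re ((q : ℝ) ^ (-s) * Real.cos ((2 * j + 1 : ℕ) * (Real.pi / 2) + φ))
        linarith
      rw [abs_mul, abs_of_nonneg hr, t4] at h3
      nlinarith
    · have h3 : |(q : ℝ) ^ (-s) * Real.sin ((2 * j + 1 : ℕ) * (Real.pi / 2) + φ)|
          - 1 / 100 * (q : ℝ) ^ (-s) ≤ |(lam ⟨-s, t⟩ q).im| := by
        have := abs_sub_abs_le_abs_sub ((q : ℝ) ^ (-s) * Real.sin ((2 * j + 1 : ℕ) * (Real.pi / 2) + φ)) (lam ⟨-s, t⟩ q).im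
        rw [abs_sub_comm] at h2
        linarith
      rw [abs_mul, abs_of_nonneg hr, t3] at h3
      nlinarith
  -- capacity of one block
  have block_cap : ∀ j, 1 ≤ j → ∀ m, m ≤ 3 * j → 1 ≤ m →
      capf E s j ≤ ∑ q ∈ blk (E ^ m), 1 / 2 * (q : ℝ) ^ (-s) := by
    intro j hj m hm3 hm1
    have h1 := sum_blk_rpow (E ^ m) s (hXbig m hm1) (by linarith)
    rw [← mul_sum]
    set X := E ^ m with hX
    have hXb := hXbig m hm1
    have hX0 : 0 < X := by positivity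
    have h4s : (4 : ℝ) ^ s ≤ 16 := by
      calc (4 : ℝ) ^ s ≤ (4 : ℝ) ^ (2 : ℝ) := Real.rpow_le_rpow_of_exponent_le (by norm_num) hs2
        _ = 16 := by norm_num
    have hXs : (4 * X) ^ s = 4 ^ s * X ^ s := Real.mul_rpow (by norm_num) hX0.le
    have hXs1 : X ^ s = X * X ^ (s - 1) := by
      rw [← Real.rpow_one_add' hX0.le (by linarith)]; ring_nf
    have hlog4X : Real.log (4 * X) ≤ 2 * (m * Real.log E) := by
      rw [Real.log_mul (by norm_num) hX0.ne', hX, Real.log_pow]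
      have h7 : Real.log 4 ≤ 2 := by
        have h7 : Real.log 4 = 2 * Real.log 2 := by
          rw [show (4 : ℝ) = 2 ^ 2 by norm_num, Real.log_pow]; norm_num
        have := Real.log_two_lt_d9
        linarith
      have hm' : (1 : ℝ) ≤ m := by exact_mod_cast hm1
      nlinarith
    have hlogpos : 0 < Real.log (4 * X) := Real.log_pos (by linarith [show (1:ℝ) ≤ 10^30 by norm_num])
    have hm0 : (0 : ℝ) < m := by exact_mod_cast hm1
    have hj0 : (0 : ℝ) < j := by exact_mod_cast hj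
    have hlE : 0 < Real.log E := by linarith
    have hXs0 : 0 < X ^ (s - 1) := by positivity
    have h2 : 1 / (32 * (m * Real.log E) * X ^ (s - 1)) ≤ X / (Real.log (4 * X) * (4 * X) ^ s) := by
      rw [hXs, hXs1, div_le_div_iff₀ (by positivity) (by positivity)]
      have h3 : Real.log (4 * X) * (4 ^ s * (X * X ^ (s - 1))) ≤ (2 * (m * Real.log E)) * (16 * (X * X ^ (s - 1))) := by
        gcongr
      calc 1 * (Real.log (4 * X) * (4 ^ s * (X * X ^ (s - 1)))) ≤ (2 * (m * Real.log E)) * (16 * (X * X ^ (s - 1))) := by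
            rw [one_mul]; exact h3
        _ = X * (32 * (m * Real.log E) * X ^ (s - 1)) := by ring
    have h3 : X ^ (s - 1) ≤ (E ^ (3 * (s - 1))) ^ j := by
      rw [hX, ← Real.rpow_natCast E m, ← Real.rpow_natCast (E ^ (3 * (s - 1))) j, ← Real.rpow_mul hE0.le,
        ← Real.rpow_mul hE0.le]
      apply Real.rpow_le_rpow_of_exponent_le hE1
      have : (m : ℝ) ≤ 3 * j := by exact_mod_cast hm3
      nlinarith
    have h4 : capf E s j ≤ 1 / 2 * (1 / (32 * (m * Real.log E) * X ^ (s - 1))) := by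
      unfold capf
      have hb0 : 0 < (E ^ (3 * (s - 1))) ^ j := by positivity
      have e1 : 1 / (192 * Real.log E) / (j : ℝ) / (E ^ (3 * (s - 1))) ^ j
          = 1 / (192 * Real.log E * j * (E ^ (3 * (s - 1))) ^ j) := by field_simp
      have e2 : 1 / 2 * (1 / (32 * (m * Real.log E) * X ^ (s - 1)))
          = 1 / (64 * (m * Real.log E) * X ^ (s - 1)) := by field_simp; norm_num
      rw [e1, e2]
      apply one_div_le_one_div_of_le (by positivity)
      have : (m : ℝ) ≤ 3 * j := by exact_mod_cast hm3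
      calc 64 * (m * Real.log E) * X ^ (s - 1) ≤ 64 * ((3 * j) * Real.log E) * (E ^ (3 * (s - 1))) ^ j := by gcongr
        _ = _ := by ring
    calc capf E s j ≤ 1 / 2 * (1 / (32 * (m * Real.log E) * X ^ (s - 1))) := h4
      _ ≤ 1 / 2 * ∑ q ∈ blk X, (q : ℝ) ^ (-s) := by gcongr; exact h2.trans h1
  refine ⟨?_, ?_, ?_, ?_, ?_, ?_⟩
  · linarith [show (4 : ℝ) ≤ 10 ^ 30 by norm_num]
  · intro j hj q hq
    obtain ⟨h1, h2⟩ := even_est j hj q hq
    have hr : 0 ≤ (q : ℝ) ^ (-s) := by positivity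
    nlinarith
  · intro j hj q hq
    obtain ⟨h1, h2⟩ := odd_est j hj q hq
    have hr : 0 ≤ (q : ℝ) ^ (-s) := by positivity
    nlinarith
  · intro j hj
    refine (block_cap j hj (2 * j) (by omega) (by omega)).trans ?_
    apply sum_le_sum
    intro q hq
    obtain ⟨h1, h2⟩ := even_est j hj q hq
    have hr : 0 ≤ (q : ℝ) ^ (-s) := by positivity
    linarith
  · intro j hj
    refine (block_cap j hj (2 * j + 1) (by omega) (by omega)).trans ?_
    apply sum_le_sum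
    intro q hq
    obtain ⟨h1, h2⟩ := odd_est j hj q hq
    have hr : 0 ≤ (q : ℝ) ^ (-s) := by positivity
    linarith
  · intro m hm q hq
    obtain ⟨h100, hXq⟩ := hq100 m hm q hq
    obtain ⟨_, _, h3⟩ := lam_est s t hs q h100
    refine h3.trans ?_
    have hXm : 0 < E ^ m := by positivity
    have hXm1 : 1 ≤ E ^ m := one_le_pow₀ hE1
    calc 3 / 2 * (q : ℝ) ^ (-s) ≤ 3 / 2 * (q : ℝ) ^ (-1 : ℝ) := by
          gcongr
          linarith
      _ = 3 / 2 * (q : ℝ)⁻¹ := by rw [Real.rpow_neg_one]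
      _ ≤ 3 / 2 * (E ^ m)⁻¹ := by
          gcongr
      _ = 3 / 2 / E ^ m := by rw [div_eq_mul_inv (3 / 2) (E ^ m)]

/-- harmonic partial sums -/
noncomputable def HF (κ : ℝ) (n : ℕ) : ℝ := ∑ j ∈ range n, κ / j

lemma HF_tendsto (κ : ℝ) (hκ : 0 < κ) : Tendsto (HF κ) atTop atTop := by
  have h1 : Tendsto (fun n : ℕ => κ * ∑ i ∈ range n, (1 : ℝ) / (i + 1)) atTop atTop :=
    Real.tendsto_sum_range_one_div_nat_succ_atTop.const_mul_atTop hκ
  rw [← tendsto_add_atTop_iff_nat 1]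
  refine h1.congr ?_
  intro n
  unfold HF
  rw [sum_range_succ', mul_sum]
  simp only [CharP.cast_eq_zero, div_zero, add_zero]
  apply sum_congr rfl
  intro i _
  push_cast
  ring

lemma HF_mono (κ : ℝ) (hκ : 0 < κ) {a b : ℕ} (h : a ≤ b) : HF κ a ≤ HF κ b := by
  unfold HF
  apply sum_le_sum_of_subset_of_nonneg (range_subset_range.mpr h)
  intro i _ _
  positivity

lemma next_exists (κ : ℝ) (hκ : 0 < κ) (a : ℕ) (ha : 1 ≤ a) (Bd : ℝ) (hBd : 0 < Bd) :
    ∃ b, a < b ∧ Bd ≤ HF κ b - HF κ a ∧ HF κ b - HF κ a < Bd + κ / a := by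
  have hex : ∃ b, a < b ∧ Bd ≤ HF κ b - HF κ a := by
    have h1 := (HF_tendsto κ hκ).eventually (eventually_ge_atTop (Bd + HF κ a))
    obtain ⟨b, hb1, hb2⟩ := (h1.and (eventually_gt_atTop a)).exists
    exact ⟨b, hb2, by linarith⟩
  classical
  set b := Nat.find hex with hb
  have hspec := Nat.find_spec hex
  refine ⟨b, hspec.1, hspec.2, ?_⟩
  have hb1 : a < b := hspec.1
  have hlast : HF κ b = HF κ (b - 1) + κ / ((b - 1 : ℕ) : ℝ) := by
    have : b = (b - 1) + 1 := by omega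
    conv_lhs => rw [this]
    unfold HF
    rw [sum_range_succ]
  have hle : κ / ((b - 1 : ℕ) : ℝ) ≤ κ / a := by
    apply div_le_div_of_nonneg_left hκ.le (by exact_mod_cast ha)
    exact_mod_cast (by omega : a ≤ b - 1)
  by_cases h : a < b - 1
  · have hmin := Nat.find_min hex (m := b - 1) (by omega)
    push Not at hmin
    have := hmin h
    linarith
  · have : b - 1 = a := by omega
    rw [hlast, this]
    linarith

lemma select (κ : ℝ) (hκ : 0 < κ) (J : ℕ) (hJ : 1 ≤ J) (C : ℝ) (hC : 0 < C) :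
    ∃ (I : ℕ) (a : ℕ → ℕ), a 0 = J ∧ (∀ i, a i < a (i + 1)) ∧
      (∀ i, C * (1 / 2 ^ i) ≤ HF κ (a (i + 1)) - HF κ (a i)) ∧ (1 : ℝ) / 2 ^ I ≤ κ / (8 * a I) := by
  have hnx : ∀ (i : ℕ) (x : {n : ℕ // 1 ≤ n}), ∃ y : {n : ℕ // 1 ≤ n}, x.1 < y.1 ∧
      C * (1 / 2 ^ i) ≤ HF κ y.1 - HF κ x.1 ∧ HF κ y.1 - HF κ x.1 < C * (1 / 2 ^ i) + κ / x.1 := by
    intro i x
    obtain ⟨b, h1, h2, h3⟩ := next_exists κ hκ x.1 x.2 (C * (1 / 2 ^ i)) (by positivity)
    exact ⟨⟨b, by have := x.2; omega⟩, h1, h2, h3⟩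
  choose nx hnx1 hnx2 hnx3 using hnx
  let a : ℕ → {n : ℕ // 1 ≤ n} := fun i => Nat.rec ⟨J, hJ⟩ (fun i x => nx i x) i
  have ha0 : (a 0).1 = J := rfl
  have ha1 : ∀ i, (a i).1 < (a (i + 1)).1 := fun i => hnx1 i (a i)
  have ha2 : ∀ i, C * (1 / 2 ^ i) ≤ HF κ (a (i + 1)).1 - HF κ (a i).1 := fun i => hnx2 i (a i)
  have ha3 : ∀ i, HF κ (a (i + 1)).1 - HF κ (a i).1 < C * (1 / 2 ^ i) + κ / (a i).1 :=
    fun i => hnx3 i (a i)
  by_contra hcon
  push Not at hcon
  have hbad : ∀ I, κ / (8 * (a I).1) < 1 / 2 ^ I := fun I =>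
    hcon I (fun i => (a i).1) ha0 ha1 ha2
  have hsum : ∀ n, HF κ (a n).1 - HF κ J ≤ (C + 8) * (2 - 2 / 2 ^ n) := by
    intro n
    induction n with
    | zero => simp [ha0]
    | succ n ih =>
      have h1 := ha3 n
      have h2 := hbad n
      have hpos : (0 : ℝ) < (a n).1 := by exact_mod_cast (a n).2
      have h3 : κ / (a n).1 = 8 * (κ / (8 * (a n).1)) := by field_simp
      have h4 : (2 : ℝ) / 2 ^ (n + 1) = 1 / 2 ^ n := by rw [pow_succ]; field_simp
      have h5 : (2 : ℝ) / 2 ^ n = 2 * (1 / 2 ^ n) := by ring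
      rw [h4]
      rw [h5] at ih
      nlinarith
  have hge : ∀ n, J + n ≤ (a n).1 := by
    intro n
    induction n with
    | zero => simp [ha0]
    | succ n ih => have := ha1 n; omega
  have h1 := (HF_tendsto κ hκ).eventually (eventually_gt_atTop ((C + 8) * 2 + HF κ J))
  obtain ⟨n, hn1, hn2⟩ := (h1.and (eventually_ge_atTop J)).exists
  have h2 := hsum n
  have h3 : HF κ n ≤ HF κ (a n).1 := HF_mono κ hκ (by have := hge n; omega)
  have h4 : (0 : ℝ) ≤ (C + 8) * (2 / 2 ^ n) := by positivity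
  nlinarith

lemma lin_le_pow (N i : ℕ) (hN : 2 ≤ N) : ((N + i : ℕ) : ℝ) ≤ N * (3 / 2 : ℝ) ^ i := by
  induction i with
  | zero => simp
  | succ i ih =>
    have hN' : (2 : ℝ) ≤ N := by exact_mod_cast hN
    have h1 : (1 : ℝ) ≤ (3 / 2 : ℝ) ^ i := one_le_pow₀ (by norm_num)
    rw [pow_succ]
    push_cast at ih ⊢
    nlinarith

theorem main (t : ℝ) (ht0 : 0 < t) (ht : t ≤ 1 / 50) :
    ∃ s0 : ℝ, 1 < s0 ∧ ∀ s : ℝ, 1 < s → s < s0 →
      IsConnected (closure (sig ⟨-s, t⟩ '' {n | 0 < n})) := by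
  set E := Real.exp (Real.pi / (2 * t)) with hE
  have hE4 : 4 ≤ E := (good 1 t (le_refl 1) (by norm_num) ht0 ht).hE
  have hE0 : 0 < E := by linarith
  have hE1 : 1 ≤ E := by linarith
  have hlogE : 0 < Real.log E := Real.log_pos (by linarith)
  set κ : ℝ := 1 / (192 * Real.log E) with hκ
  have hκ0 : 0 < κ := by positivity
  -- the threshold J
  obtain ⟨J, hJ2, hJ⟩ : ∃ J : ℕ, 2 ≤ J ∧ ∀ j : ℕ, J ≤ j →
      (36 / 5) * E ^ 2 * (j * (4 / 3 : ℝ) ^ j) ≤ κ * E ^ (2 * j) := by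
    have h1 : Tendsto (fun n : ℕ => (n : ℝ) * (1 / 2 : ℝ) ^ n) atTop (𝓝 0) :=
      tendsto_self_mul_const_pow_of_lt_one (by norm_num) (by norm_num)
    have h2 : Tendsto (fun n : ℕ => (36 / 5) * E ^ 2 * ((n : ℝ) * (1 / 2 : ℝ) ^ n)) atTop (𝓝 0) := by
      have := h1.const_mul ((36 / 5) * E ^ 2)
      simpa using this
    obtain ⟨J, hJ⟩ := eventually_atTop.mp ((h2.eventually (gt_mem_nhds hκ0)).and (eventually_ge_atTop 2))
    refine ⟨max J 2, le_max_right _ _, ?_⟩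
    intro j hj
    have h3 := (hJ j (le_trans (le_max_left _ _) hj)).1
    have h4 : (4 / 3 : ℝ) ^ j ≤ (1 / 2 : ℝ) ^ j * E ^ (2 * j) := by
      rw [pow_mul, ← mul_pow]
      apply pow_le_pow_left₀ (by norm_num)
      nlinarith
    have hj0 : (0 : ℝ) ≤ j := by positivity
    calc (36 / 5) * E ^ 2 * (j * (4 / 3 : ℝ) ^ j)
        ≤ (36 / 5) * E ^ 2 * (j * ((1 / 2 : ℝ) ^ j * E ^ (2 * j))) := by gcongr
      _ = ((36 / 5) * E ^ 2 * ((j : ℝ) * (1 / 2 : ℝ) ^ j)) * E ^ (2 * j) := by ring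
      _ ≤ κ * E ^ (2 * j) := by gcongr
  obtain ⟨I, a, ha0, ha1, ha2, ha3⟩ := select κ hκ0 J (by omega) (8 / 5) (by norm_num)
  have hage : ∀ n, J + n ≤ a n := by
    intro n
    induction n with
    | zero => simp [ha0]
    | succ n ih => have := ha1 n; omega
  have hamono : ∀ i j, i ≤ j → a i ≤ a j := by
    intro i j hij
    exact monotone_nat_of_le_succ (fun n => (ha1 n).le) hij
  set N := a I with hN
  have hN2 : 2 ≤ N := by have := hage I; omega
  have hN0 : (0 : ℝ) < N := by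
    have : 0 < N := by omega
    exact_mod_cast this
  -- choice of s0
  have hl43 : 0 < Real.log (4 / 3) := Real.log_pos (by norm_num)
  refine ⟨min 2 (1 + Real.log (4 / 3) / (3 * N * Real.log E)), ?_, ?_⟩
  · apply lt_min (by norm_num)
    have : 0 < Real.log (4 / 3) / (3 * N * Real.log E) := by positivity
    linarith
  intro s hs1 hs2
  have hs2' : s ≤ 2 := hs2.le.trans (min_le_left _ _)
  have hs3 : s - 1 ≤ Real.log (4 / 3) / (3 * N * Real.log E) := by
    have := hs2.le.trans (min_le_right _ _)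
    linarith
  set β : ℝ := E ^ (3 * (s - 1)) with hβ
  have hβ1 : 1 ≤ β := Real.one_le_rpow hE1 (by linarith)
  have hβ0 : 0 < β := by linarith
  have hβN : β ^ N ≤ 4 / 3 := by
    rw [hβ, ← Real.rpow_natCast, ← Real.rpow_mul hE0.le]
    rw [← Real.log_le_log_iff (by positivity) (by norm_num), Real.log_rpow hE0]
    rw [le_div_iff₀ (by positivity)] at hs3
    nlinarith
  have hβ43 : β ≤ 4 / 3 := by
    calc β = β ^ 1 := (pow_one β).symm
      _ ≤ β ^ N := pow_le_pow_right₀ hβ1 (by omega)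
      _ ≤ 4 / 3 := hβN
  have G := good s t hs1.le hs2' ht0 ht
  rw [← hE] at G
  have hcapf : ∀ j, capf E s j = κ / j / β ^ j := fun j => rfl
  -- tail at N
  have hTN : T ⟨-s, t⟩ E N (1 / 2 ^ I) := by
    apply T_tail G N (by omega) _ (by positivity)
    · intro i
      rw [hcapf]
      have h1 := lin_le_pow N i hN2
      have h2 : β ^ (N + i) ≤ 4 / 3 * (4 / 3) ^ i := by
        rw [pow_add]; gcongr
      have hNi : (0 : ℝ) < ((N + i : ℕ) : ℝ) := by
        have : 0 < N + i := by omega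
        exact_mod_cast this
      have h3 : κ / (N * (3 / 2 : ℝ) ^ i) / (4 / 3 * (4 / 3) ^ i) ≤ κ / ((N + i : ℕ) : ℝ) / β ^ (N + i) := by
        gcongr
      have h4 : κ / (N * (3 / 2 : ℝ) ^ i) / (4 / 3 * (4 / 3) ^ i) = 3 / 4 * (κ / N) * (1 / 2 ^ i) := by
        have h5 : (3 / 2 : ℝ) ^ i * (4 / 3) ^ i = 2 ^ i := by
          rw [← mul_pow]; norm_num
        rw [div_div]
        have h6 : (N : ℝ) * (3 / 2 : ℝ) ^ i * (4 / 3 * (4 / 3) ^ i) = N * (4 / 3) * 2 ^ i := by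
          rw [← h5]; ring
        rw [h6]
        field_simp
      have h7 : (1 : ℝ) / 2 ^ I ≤ 1 / 8 * (κ / N) := by
        refine ha3.trans (le_of_eq ?_)
        field_simp
      have h8 : 6 / 5 * ((1 : ℝ) / 2 ^ I / 2 ^ i) = 6 / 5 * (1 / 2 ^ I) * (1 / 2 ^ i) := by ring
      rw [h8]
      refine le_trans ?_ (h4 ▸ h3)
      have h9 : 0 < κ / N := by positivity
      have h10 : (0 : ℝ) < 1 / 2 ^ i := by positivity
      exact mul_le_mul_of_nonneg_right (by linarith) h10.le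
    · intro i
      have h1 : I + i + 2 ≤ N + i := by have := hage I; omega
      have h2 : (6 : ℝ) * (2 ^ I * 2 ^ i) ≤ E ^ (2 * (N + i)) := by
        calc (6 : ℝ) * (2 ^ I * 2 ^ i) ≤ 4 ^ 2 * (4 ^ I * 4 ^ i) := by
              gcongr <;> norm_num
          _ = 4 ^ (I + i + 2) := by ring
          _ ≤ E ^ (I + i + 2) := by gcongr
          _ ≤ E ^ (2 * (N + i)) := pow_le_pow_right₀ hE1 (by omega)
      have h3 : (1 : ℝ) / 2 ^ I / 2 ^ i / 4 = 1 / (4 * (2 ^ I * 2 ^ i)) := by field_simp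
      rw [h3, div_le_div_iff₀ (by positivity) (by positivity)]
      linarith
  -- go down to J
  have hTdown : ∀ k, k ≤ I → T ⟨-s, t⟩ E (a (I - k)) (1 / 2 ^ (I - k)) := by
    intro k
    induction k with
    | zero => intro _; simpa using hTN
    | succ k ih =>
      intro hk
      have ih' := ih (by omega)
      set i := I - (k + 1) with hi
      have hik : I - k = i + 1 := by omega
      rw [hik] at ih'
      apply T_step G (a i) (a (i + 1)) (by have := hage i; omega) (ha1 i).le _ (by positivity)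
      · have h1 := ha2 i
        have h2 : HF κ (a (i + 1)) - HF κ (a i) = ∑ j ∈ Finset.Ico (a i) (a (i + 1)), κ / j := by
          unfold HF
          rw [Finset.sum_Ico_eq_sub _ (ha1 i).le]
        rw [h2] at h1
        have h3 : ∑ j ∈ Finset.Ico (a i) (a (i + 1)), 3 / 4 * (κ / j)
            ≤ ∑ j ∈ Finset.Ico (a i) (a (i + 1)), capf E s j := by
          apply sum_le_sum
          intro j hj
          rw [hcapf]
          have hj1 := (mem_Ico.mp hj).1
          have hj2 := (mem_Ico.mp hj).2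
          have hjN : j ≤ N := by
            have := hamono (i + 1) I (by omega)
            omega
          have h4 : β ^ j ≤ 4 / 3 := (pow_le_pow_right₀ hβ1 hjN).trans hβN
          have hj0 : (0 : ℝ) < j := by
            have := hage i
            have : 0 < j := by omega
            exact_mod_cast this
          rw [le_div_iff₀ (by positivity)]
          have h5 : 0 < κ / j := by positivity
          nlinarith
        rw [← mul_sum] at h3
        linarith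
      · have h1 : i + 2 ≤ a i := by have := hage i; omega
        have h2 : (6 : ℝ) * 2 ^ i ≤ E ^ (2 * a i) := by
          calc (6 : ℝ) * 2 ^ i ≤ 4 ^ 2 * 4 ^ i := by
                gcongr <;> norm_num
            _ = 4 ^ (i + 2) := by ring
            _ ≤ E ^ (i + 2) := by gcongr
            _ ≤ E ^ (2 * a i) := pow_le_pow_right₀ hE1 (by omega)
        have h3 : (1 : ℝ) / 2 ^ i / 4 = 1 / (4 * 2 ^ i) := by field_simp
        rw [h3, div_le_div_iff₀ (by positivity) (by positivity)]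
        linarith
      · have h1 : (1 : ℝ) / 2 ^ i / 2 = 1 / 2 ^ (i + 1) := by rw [pow_succ]; field_simp
        rw [h1]; exact ih'
  have hTJ : T ⟨-s, t⟩ E J 1 := by
    have := hTdown I (le_refl I)
    simpa [ha0] using this
  -- large starting blocks
  have hTlarge : ∀ j, J ≤ j → T ⟨-s, t⟩ E j (6 * E ^ 2 / E ^ (2 * j)) := by
    intro j hj
    apply T_tail G j (by omega) _ (by positivity)
    · intro i
      rw [hcapf]
      have h1 := lin_le_pow j i (by omega)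
      have hj0 : (0 : ℝ) < j := by
        have : 0 < j := by omega
        exact_mod_cast this
      have hNi : (0 : ℝ) < ((j + i : ℕ) : ℝ) := by
        have : 0 < j + i := by omega
        exact_mod_cast this
      have h2 : β ^ (j + i) ≤ (4 / 3) ^ j * (4 / 3) ^ i := by
        rw [pow_add]; gcongr
      have h3 : κ / (j * (3 / 2 : ℝ) ^ i) / ((4 / 3) ^ j * (4 / 3) ^ i) ≤ κ / ((j + i : ℕ) : ℝ) / β ^ (j + i) := by
        gcongr
      refine le_trans ?_ h3
      have h5 : (3 / 2 : ℝ) ^ i * (4 / 3) ^ i = 2 ^ i := by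
        rw [← mul_pow]; norm_num
      have h6 : (j : ℝ) * (3 / 2 : ℝ) ^ i * ((4 / 3) ^ j * (4 / 3) ^ i) = (j * (4 / 3) ^ j) * 2 ^ i := by
        rw [← h5]; ring
      rw [div_div κ, h6, ← div_div κ]
      have h7 : 6 / 5 * (6 * E ^ 2 / E ^ (2 * j) / 2 ^ i) = (6 / 5 * (6 * E ^ 2 / E ^ (2 * j))) / 2 ^ i := by
        ring
      rw [h7]
      apply div_le_div_of_nonneg_right _ (by positivity)
      have h8 := hJ j hj
      rw [le_div_iff₀ (by positivity)]
      have h9 : 6 / 5 * (6 * E ^ 2 / E ^ (2 * j)) * (j * (4 / 3) ^ j)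
          = ((36 / 5) * E ^ 2 * (j * (4 / 3 : ℝ) ^ j)) / E ^ (2 * j) := by ring
      rw [h9, div_le_iff₀ (by positivity)]
      exact h8
    · intro i
      have h1 : (1 : ℝ) * 2 ^ i ≤ E ^ 2 * E ^ (2 * i) := by
        have h2 : (2 : ℝ) ^ i ≤ E ^ (2 * i) := by
          rw [pow_mul]
          apply pow_le_pow_left₀ (by norm_num)
          nlinarith
        have h3 : 1 ≤ E ^ 2 := one_le_pow₀ hE1
        apply mul_le_mul h3 h2 (by positivity) (by positivity)
      have h2 : E ^ (2 * (j + i)) = E ^ (2 * j) * E ^ (2 * i) := by rw [← pow_add]; ring_nf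
      have h3 : 0 < E ^ (2 * j) := by positivity
      have h4 : 6 * E ^ 2 / E ^ (2 * j) / 2 ^ i / 4 = (3 / 2 * E ^ 2) / (E ^ (2 * j) * 2 ^ i) := by
        field_simp; norm_num
      rw [h2, h4, div_le_div_iff₀ (by positivity) (by positivity)]
      have h5 : 3 / 2 * (E ^ (2 * j) * 2 ^ i) = 3 / 2 * E ^ (2 * j) * (1 * 2 ^ i) := by ring
      have h6 : 3 / 2 * E ^ 2 * (E ^ (2 * j) * E ^ (2 * i)) = 3 / 2 * E ^ (2 * j) * (E ^ 2 * E ^ (2 * i)) := by
        ring
      rw [h5, h6]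
      exact mul_le_mul_of_nonneg_left h1 (by positivity)
  -- conclude
  apply conn_of_apx _ (by simp; linarith)
  intro p hp w hw ε hε
  have hp2 : (2 : ℝ) ≤ p := by exact_mod_cast hp.two_le
  have hp0 : (0 : ℝ) < p := by linarith
  simp only at hw
  have hps : (p : ℝ) ^ (-s) ≤ (p : ℝ)⁻¹ := by
    rw [← Real.rpow_neg_one]
    exact Real.rpow_le_rpow_of_exponent_le (by linarith) (by linarith)
  -- the starting block
  have hex : ∃ j : ℕ, (p : ℝ) ≤ E ^ (2 * j) := by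
    have h1 : Tendsto (fun j : ℕ => (E ^ 2) ^ j) atTop atTop :=
      tendsto_pow_atTop_atTop_of_one_lt (by nlinarith)
    obtain ⟨j, hj⟩ := (h1.eventually (eventually_ge_atTop (p : ℝ))).exists
    exact ⟨j, by rw [pow_mul]; exact hj⟩
  classical
  set j0 := Nat.find hex with hj0
  have hj1 : (p : ℝ) ≤ E ^ (2 * j0) := Nat.find_spec hex
  have finish : ∀ j, j0 ≤ j → ∀ W, T ⟨-s, t⟩ E j W → ‖w‖ ≤ W →
      ∃ U V : Finset ℕ, (∀ q ∈ U, q.Prime ∧ p < q) ∧ (∀ q ∈ V, q.Prime ∧ p < q) ∧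
      ‖w - (∑ q ∈ U, lam ⟨-s, t⟩ q - ∑ q ∈ V, lam ⟨-s, t⟩ q)‖ < ε := by
    intro j hj W hT hwW
    obtain ⟨M, d, ⟨U, V, hU, hV, hd⟩, hwd⟩ := hT w ((Complex.abs_re_le_norm w).trans hwW)
      ((Complex.abs_im_le_norm w).trans hwW) ε hε
    have hpj : (p : ℝ) ≤ E ^ (2 * j) := hj1.trans (pow_le_pow_right₀ hE1 (by omega))
    refine ⟨U, V, ?_, ?_, ?_⟩
    · intro q hq
      exact ⟨(hU q hq).1, by exact_mod_cast lt_of_le_of_lt hpj (hU q hq).2.1⟩
    · intro q hq
      exact ⟨(hV q hq).1, by exact_mod_cast lt_of_le_of_lt hpj (hV q hq).2.1⟩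
    · rw [← hd]; exact hwd
  by_cases hc : j0 ≤ J
  · apply finish J hc 1 hTJ
    refine hw.trans ?_
    have : (p : ℝ)⁻¹ ≤ 1 / 2 := by rw [one_div]; exact inv_anti₀ (by norm_num) hp2
    linarith
  · push Not at hc
    apply finish j0 (le_refl _) _ (hTlarge j0 hc.le)
    refine hw.trans ?_
    have hmin := Nat.find_min hex (m := j0 - 1) (by omega)
    push Not at hmin
    have h1 : E ^ (2 * j0) = E ^ (2 * (j0 - 1)) * E ^ 2 := by
      rw [← pow_add]; congr 1; omega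
    have h2 : (p : ℝ)⁻¹ ≤ (E ^ (2 * (j0 - 1)))⁻¹ := inv_anti₀ (by positivity) hmin.le
    have h3 : 6 * E ^ 2 / E ^ (2 * j0) = 6 * (E ^ (2 * (j0 - 1)))⁻¹ := by
      rw [h1]; field_simp
    rw [h3]
    have h4 : 0 < (E ^ (2 * (j0 - 1)))⁻¹ := by positivity
    linarith

lemma sig_conj (c : ℂ) (n : ℕ) : sig ((starRingEnd ℂ) c) n = (starRingEnd ℂ) (sig c n) := by
  unfold sig
  rw [map_sum]
  apply sum_congr rfl
  intro d _
  have h := Complex.cpow_conj (d : ℂ) c (by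
    rw [Complex.natCast_arg]; exact Real.pi_pos.ne)
  rw [h, Complex.conj_natCast]

lemma conn_conj (c : ℂ) (h : IsConnected (closure (sig c '' {n | 0 < n}))) :
    IsConnected (closure (sig ((starRingEnd ℂ) c) '' {n | 0 < n})) := by
  have h1 : sig ((starRingEnd ℂ) c) '' {n | 0 < n}
      = (Complex.conjCLE.toHomeomorph) '' (sig c '' {n | 0 < n}) := by
    rw [Set.image_image]
    apply Set.image_congr
    intro n _
    exact sig_conj c n
  rw [h1, ← Homeomorph.image_closure]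
  exact h.image _ (Homeomorph.continuous _).continuousOn

/-- For every real `t` with `0 < |t| ≤ 1/50` there is `s₀ > 1` such that for all `s` in `(1, s₀)`
the closure of `{σ_c(n) : n ≥ 1}`, `c = -s + i t`, is connected. -/
theorem result : ∀ t : ℝ, t ≠ 0 → |t| ≤ 1 / 50 → ∃ s₀ : ℝ, 1 < s₀ ∧ ∀ s : ℝ, 1 < s → s < s₀ →
    IsConnected (closure (sig (-(s : ℂ) + (t : ℂ) * Complex.I) '' {n : ℕ | 0 < n})) := by
  intro t ht0 ht
  have hc : ∀ s t : ℝ, (-(s : ℂ) + (t : ℂ) * Complex.I) = ⟨-s, t⟩ := by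
    intro s t
    apply Complex.ext <;> simp
  rcases lt_or_gt_of_ne ht0 with h | h
  · obtain ⟨s0, h1, h2⟩ := main (-t) (by linarith) (by rw [abs_of_neg h] at ht; exact ht)
    refine ⟨s0, h1, ?_⟩
    intro s hs hs'
    have h3 := conn_conj _ (h2 s hs hs')
    have h4 : (starRingEnd ℂ) (⟨-s, -t⟩ : ℂ) = ⟨-s, t⟩ := by
      apply Complex.ext <;> simp
    rw [h4] at h3
    rw [hc]; exact h3
  · obtain ⟨s0, h1, h2⟩ := main t h (by rw [abs_of_pos h] at ht; exact ht)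
    refine ⟨s0, h1, ?_⟩
    intro s hs hs'
    rw [hc]; exact h2 s hs hs'

end Pool.Agent.Results.MP_8a688e_nt.ConnectedClosure
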